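import Pool.Agent.H46Z.Down

/-!
# Groups of commuting involutions acting on curves
-/

set_option autoImplicit false
set_option linter.unusedSectionVars false

open FF Module IntermediateField

namespace Pool.Agent.H46Z

theorem chi_apply {r : ℕ} (T : Finset (Fin r)) (g : Signs r) : chi T g = ∏ i ∈ T, g i := rfl

theorem signs_sq {r : ℕ} (g : Signs r) : g * g = 1 := by
  funext i
  exact Int.units_mul_self (g i)

section act

variable {F : Type} [Field F] [Algebra ℂ F] {r : ℕ} (ρ : Signs r →* (F ≃ₐ[ℂ] F))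

theorem act_one (P : Place ℂ F) : act ρ 1 P = P := by
  apply Place.ext
  funext f
  rw [act, Place.comp_ord, map_one]
  rfl

theorem act_act (g h : Signs r) (P : Place ℂ F) : act ρ g (act ρ h P) = act ρ (g * h) P := by
  apply Place.ext
  funext f
  rw [act, act, act, Place.comp_ord, Place.comp_ord, Place.comp_ord, mul_comm g h, map_mul]
  rfl

theorem isMor_act (g : Signs r) : IsMor (fun P : Place ℂ F => act ρ g P) :=
  Or.inr ⟨(ρ g : F →ₐ[ℂ] F), fun Q => ⟨1, one_pos, fun f => by
    rw [Nat.cast_one, one_mul]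
    rfl⟩⟩

/-- The point, transformed by the element of the group ring attached to a character. -/
noncomputable def wt (T : Finset (Fin r)) (P : Place ℂ F) : Place ℂ F →₀ ℚ :=
  ∑ g, Finsupp.single (act ρ g P) (((chi T g : ℤˣ) : ℤ) : ℚ)

theorem wt_act (T : Finset (Fin r)) (h : Signs r) (P : Place ℂ F) :
    wt ρ T (act ρ h P) = (((chi T h : ℤˣ) : ℤ) : ℚ) • wt ρ T P := by
  unfold wt
  rw [Finset.smul_sum]
  refine Fintype.sum_equiv (Equiv.mulRight h) _ _ fun g => ?_
  rw [Equiv.coe_mulRight, act_act, Finsupp.smul_single, map_mul, smul_eq_mul]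
  congr 1
  rw [← Int.cast_mul, ← Units.val_mul, mul_comm (chi T g), ← mul_assoc, Int.units_mul_self,
    one_mul]

theorem fam_wt (T : Finset (Fin r)) : (fun P => wt ρ T P) ∈ Fam F (Place ℂ F) := by
  have h : (fun P => wt ρ T P) =
      ∑ g, (((chi T g : ℤˣ) : ℤ) : ℚ) • fun P => Finsupp.single (act ρ g P) (1 : ℚ) := by
    funext P
    rw [Finset.sum_apply, wt]
    refine Finset.sum_congr rfl fun g _ => ?_
    rw [Pi.smul_apply, Finsupp.smul_single, smul_eq_mul, mul_one]
  rw [h]
  exact Submodule.sum_mem _ fun g _ => Submodule.smul_mem _ _ (fam_mor (isMor_act ρ g))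

variable [IsFF ℂ F]

instance fixed_finite (H : Subgroup (F ≃ₐ[ℂ] F)) [Finite H] : FiniteDimensional (fixedField H) F :=
  Pool.Agent.W619.PQ.fixed_finite H

theorem wt_over (T : Finset (Fin r)) {w w' : Place ℂ F}
    {v : Place ℂ (fixedField ((chi T).ker.map ρ))} {e e' : ℕ} (h : Over w v e)
    (h' : Over w' v e') : wt ρ T w' = wt ρ T w := by
  obtain ⟨g, hg, hw⟩ := over_conj _ h h'
  obtain ⟨g0, hg0, rfl⟩ := hg
  have h1 : w' = act ρ g0 w := hw
  have h2 : chi T g0 = 1 := hg0
  rw [h1, wt_act, h2]
  simp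

/-- The function `wt` on the quotient curve. -/
noncomputable def wtq (T : Finset (Fin r)) (v : Place ℂ (fixedField ((chi T).ker.map ρ))) :
    Place ℂ F →₀ ℚ :=
  wt ρ T (exists_above (F := F) v).choose

theorem wtq_eq (T : Finset (Fin r)) (w : Place ℂ F)
    (v : Place ℂ (fixedField ((chi T).ker.map ρ))) (e : ℕ) (h : Over w v e) :
    wt ρ T w = wtq ρ T v := by
  obtain ⟨e', h'⟩ := (exists_above (F := F) v).choose_spec
  exact wt_over ρ T h' h

/-- The point of the quotient curve below a point. -/
noncomputable def below (T : Finset (Fin r)) (w : Place ℂ F) :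
    Place ℂ (fixedField ((chi T).ker.map ρ)) :=
  (exists_below (E := fixedField ((chi T).ker.map ρ)) w).choose

theorem wtq_below (T : Finset (Fin r)) (w : Place ℂ F) : wtq ρ T (below ρ T w) = wt ρ T w := by
  obtain ⟨e, h⟩ := (exists_below (E := fixedField ((chi T).ker.map ρ)) w).choose_spec
  exact (wtq_eq ρ T w _ e h).symm

theorem kills_wt (T : Finset (Fin r)) : Kills (wt ρ T) (quotGenus ρ T) := by
  intro ι M _ _ _ _ Ψ hR A hA o x v
  have h1 := sym_zero (hR.down (W' := wtq ρ T) (wtq_eq ρ T)) A hA (below ρ T o)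
    (fun j => below ρ T (x j)) v
  rw [← h1]
  refine Finset.sum_congr rfl fun τ _ => ?_
  congr 1
  funext j
  by_cases hj : j ∈ A
  · rw [Finset.piecewise_eq_of_mem _ _ _ hj, Finset.piecewise_eq_of_mem _ _ _ hj, wtq_below,
      wtq_below]
  · rw [Finset.piecewise_eq_of_notMem _ _ _ hj, Finset.piecewise_eq_of_notMem _ _ _ hj]

end act

section box

variable {X Y : Type}

/-- The exterior product of two cycles. -/
noncomputable def box (a : X →₀ ℚ) (b : Y →₀ ℚ) : X × Y →₀ ℚ :=
  Finsupp.onFinset (a.support ×ˢ b.support) (fun p => a p.1 * b p.2) (by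
    intro p hp
    rw [Finset.mem_product, Finsupp.mem_support_iff, Finsupp.mem_support_iff]
    exact ⟨left_ne_zero_of_mul hp, right_ne_zero_of_mul hp⟩)

theorem box_apply (a : X →₀ ℚ) (b : Y →₀ ℚ) (p : X × Y) : box a b p = a p.1 * b p.2 := rfl

theorem box_single (x : X) (y : Y) (r s : ℚ) :
    box (Finsupp.single x r) (Finsupp.single y s) = Finsupp.single (x, y) (r * s) := by
  classical
  ext ⟨p, q⟩
  rw [box_apply, Finsupp.single_apply, Finsupp.single_apply, Finsupp.single_apply]
  by_cases h1 : x = p <;> by_cases h2 : y = q <;> simp [h1, h2]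

/-- `box` as a linear map in the first argument. -/
noncomputable def boxL (b : Y →₀ ℚ) : (X →₀ ℚ) →ₗ[ℚ] (X × Y →₀ ℚ) where
  toFun a := box a b
  map_add' a a' := by
    ext p
    simp only [box_apply, Finsupp.add_apply, add_mul]
  map_smul' r a := by
    ext p
    simp only [box_apply, Finsupp.smul_apply, smul_eq_mul, mul_assoc, RingHom.id_apply]

/-- `box` as a linear map in the second argument. -/
noncomputable def boxR (a : X →₀ ℚ) : (Y →₀ ℚ) →ₗ[ℚ] (X × Y →₀ ℚ) where
  toFun b := box a b
  map_add' b b' := by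
    ext p
    simp only [box_apply, Finsupp.add_apply, mul_add]
  map_smul' r b := by
    ext p
    simp only [box_apply, Finsupp.smul_apply, smul_eq_mul, RingHom.id_apply]
    ring

theorem boxL_apply (a : X →₀ ℚ) (b : Y →₀ ℚ) : boxL b a = box a b := rfl
theorem boxR_apply (a : X →₀ ℚ) (b : Y →₀ ℚ) : boxR a b = box a b := rfl

variable [Points X] [Points Y]

theorem fam_box {L : Type} [Field L] [Algebra ℂ L] {c : Place ℂ L → X →₀ ℚ}
    {d : Place ℂ L → Y →₀ ℚ} (hc : c ∈ Fam L X) (hd : d ∈ Fam L Y) :
    (fun P => box (c P) (d P)) ∈ Fam L (X × Y) := by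
  unfold Fam at hc
  induction hc using Submodule.span_induction with
  | mem c hc =>
    obtain ⟨m, hm, rfl⟩ := hc
    unfold Fam at hd
    induction hd using Submodule.span_induction with
    | mem d hd =>
      obtain ⟨m', hm', rfl⟩ := hd
      have h : (fun P : Place ℂ L => box (Finsupp.single (m P) 1) (Finsupp.single (m' P) 1)) =
          fun P => Finsupp.single (m P, m' P) (1 : ℚ) := by
        funext P
        rw [box_single, one_mul]
      rw [h]
      exact fam_mor ⟨hm, hm'⟩
    | zero =>
      have h : (fun P : Place ℂ L => box (Finsupp.single (m P) 1) ((0 : Place ℂ L → Y →₀ ℚ) P)) =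
          0 := by
        funext P
        exact (boxR (Finsupp.single (m P) 1)).map_zero
      rw [h]
      exact zero_mem _
    | add x y _ _ hx hy =>
      have h : (fun P : Place ℂ L => box (Finsupp.single (m P) 1) ((x + y) P)) =
          (fun P => box (Finsupp.single (m P) 1) (x P)) +
            fun P => box (Finsupp.single (m P) 1) (y P) := by
        funext P
        exact (boxR (Finsupp.single (m P) 1)).map_add _ _
      rw [h]
      exact add_mem hx hy
    | smul r x _ hx =>
      have h : (fun P : Place ℂ L => box (Finsupp.single (m P) 1) ((r • x) P)) =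
          r • (fun P => box (Finsupp.single (m P) 1) (x P)) := by
        funext P
        exact (boxR (Finsupp.single (m P) 1)).map_smul _ _
      rw [h]
      exact Submodule.smul_mem _ _ hx
  | zero =>
    have h : (fun P : Place ℂ L => box ((0 : Place ℂ L → X →₀ ℚ) P) (d P)) = 0 := by
      funext P
      exact (boxL (d P)).map_zero
    rw [h]
    exact zero_mem _
  | add x y _ _ hx hy =>
    have h : (fun P : Place ℂ L => box ((x + y) P) (d P)) =
        (fun P => box (x P) (d P)) + fun P => box (y P) (d P) := by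
      funext P
      exact (boxL (d P)).map_add _ _
    rw [h]
    exact add_mem hx hy
  | smul r x _ hx =>
    have h : (fun P : Place ℂ L => box ((r • x) P) (d P)) = r • (fun P => box (x P) (d P)) := by
      funext P
      exact (boxL (d P)).map_smul _ _
    rw [h]
    exact Submodule.smul_mem _ _ hx

theorem map_dv {V W L : Type} [Field L] [Algebra ℂ L] [IsFF ℂ L] (f : (V →₀ ℚ) →ₗ[ℚ] (W →₀ ℚ))
    (h : L) (c : Place ℂ L → V →₀ ℚ) : f (dv h c) = dv h fun P => f (c P) := by
  unfold dv
  rw [Finsupp.sum, map_sum, Finsupp.sum]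
  exact Finset.sum_congr rfl fun P _ => map_smul _ _ _

theorem box_mem_left [HasConst Y] {a : X →₀ ℚ} (ha : a ∈ RatQ X) (b : Y →₀ ℚ) :
    box a b ∈ RatQ (X × Y) := by
  have h1 : RatQ X ≤ (RatQ (X × Y)).comap (boxL b) := by
    unfold RatQ
    rw [Submodule.span_le]
    rintro _ ⟨L, i1, i2, i3, m, h, hm, hh, rfl⟩
    rw [SetLike.mem_coe, Submodule.mem_comap, map_dv]
    exact dv_mem hh (fam_box (fam_mor hm) (fam_const b))
  exact h1 ha

theorem box_mem_right [HasConst X] (a : X →₀ ℚ) {b : Y →₀ ℚ} (hb : b ∈ RatQ Y) :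
    box a b ∈ RatQ (X × Y) := by
  have h1 : RatQ Y ≤ (RatQ (X × Y)).comap (boxR a) := by
    unfold RatQ
    rw [Submodule.span_le]
    rintro _ ⟨L, i1, i2, i3, m, h, hm, hh, rfl⟩
    rw [SetLike.mem_coe, Submodule.mem_comap, map_dv]
    exact dv_mem hh (fam_box (fam_const a) (fam_mor hm))
  exact h1 hb

end box

end Pool.Agent.H46Z
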