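import Pool.Agent.H46Z.Act
import Pool.Agent.R904.Voi.Alt

/-!
# Alternating sums of exterior products
-/

set_option autoImplicit false
set_option linter.unusedSectionVars false

open FF Module IntermediateField

namespace Pool.Agent.H46Z

section perm

variable {ι X : Type} [Fintype ι] [DecidableEq ι] [Points X]

/-- Permutation of the factors. -/
noncomputable def permMap (σ : Equiv.Perm ι) : ((ι → X) →₀ ℚ) →ₗ[ℚ] ((ι → X) →₀ ℚ) :=
  Finsupp.lmapDomain ℚ ℚ fun p => p ∘ σ

theorem permMap_cross (σ : Equiv.Perm ι) (a : ι → X →₀ ℚ) :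
    permMap σ (cross a) = cross (a ∘ σ) := by
  classical
  have h1 : ∀ p : ι → X, p = (p ∘ σ.symm) ∘ σ := by
    intro p
    funext i
    simp
  have hinj : Function.Injective fun p : ι → X => p ∘ σ := by
    intro p q h
    rw [h1 p, h1 q]
    funext i
    have := congrFun h (σ.symm i)
    simp only [Function.comp_apply, Equiv.apply_symm_apply] at this
    simpa using this
  ext p
  rw [permMap, Finsupp.lmapDomain_apply, h1 p, Finsupp.mapDomain_apply hinj, cross_apply,
    cross_apply, ← h1 p]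
  exact Fintype.prod_equiv σ.symm _ _ fun i => by simp

theorem permMap_mem (σ : Equiv.Perm ι) {z : (ι → X) →₀ ℚ} (hz : z ∈ RatQ (ι → X)) :
    permMap σ z ∈ RatQ (ι → X) := by
  have h1 : RatQ (ι → X) ≤ (RatQ (ι → X)).comap (permMap σ) := by
    conv_lhs => unfold RatQ
    rw [Submodule.span_le]
    rintro _ ⟨L, i1, i2, i3, m, h, hm, hh, rfl⟩
    rw [SetLike.mem_coe, Submodule.mem_comap, map_dv]
    refine dv_mem hh ?_
    have h2 : (fun P => permMap σ (Finsupp.single (m P) (1 : ℚ))) =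
        fun P => Finsupp.single (m P ∘ σ) 1 := by
      funext P
      rw [permMap, Finsupp.lmapDomain_apply, Finsupp.mapDomain_single]
    rw [h2]
    exact fam_mor fun j => hm (σ j)
  exact h1 hz

/-- The alternating sum of the exterior products. -/
noncomputable def altC (a : ι → X →₀ ℚ) : (ι → X) →₀ ℚ :=
  ∑ σ : Equiv.Perm ι, ((Equiv.Perm.sign σ : ℤ) : ℚ) • cross fun j => a (σ j)

/-- The alternating sum as a multilinear map. -/
noncomputable def altM (ι X : Type) [Fintype ι] [DecidableEq ι] :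
    MultilinearMap ℚ (fun _ : ι => X →₀ ℚ) ((ι → X) →₀ ℚ) :=
  ((MultilinearMap.alternatization (crossM ι X) : (X →₀ ℚ) [⋀^ι]→ₗ[ℚ] ((ι → X) →₀ ℚ)) :
    MultilinearMap ℚ (fun _ : ι => X →₀ ℚ) ((ι → X) →₀ ℚ))

theorem altM_apply (a : ι → X →₀ ℚ) : altM ι X a = altC a := by
  rw [altM, AlternatingMap.coe_multilinearMap, MultilinearMap.alternatization_apply, altC]
  refine Finset.sum_congr rfl fun σ _ => ?_
  rw [MultilinearMap.domDomCongr_apply, crossM_apply, Units.smul_def, ← Int.cast_smul_eq_zsmul ℚ]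

/-- If the alternating sum over the permutations of a set `A` of indices is rationally equivalent
to zero, then the full alternating sum is. -/
theorem altC_of_sub (a : ι → X →₀ ℚ) (A : Finset ι)
    (h : ∑ ρ : Equiv.Perm A, ((Equiv.Perm.sign ρ : ℤ) : ℚ) •
      cross (fun j => a (Equiv.Perm.ofSubtype ρ j)) ∈ RatQ (ι → X)) :
    altC a ∈ RatQ (ι → X) := by
  classical
  have h1 : ∀ ρ : Equiv.Perm A, altC a = ∑ σ : Equiv.Perm ι, (((Equiv.Perm.sign σ : ℤ) : ℚ) *
      ((Equiv.Perm.sign ρ : ℤ) : ℚ)) • permMap σ (cross fun j => a (Equiv.Perm.ofSubtype ρ j)) := by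
    intro ρ
    unfold altC
    rw [← Equiv.sum_comp (Equiv.mulLeft (Equiv.Perm.ofSubtype ρ))]
    refine Finset.sum_congr rfl fun σ _ => ?_
    rw [Equiv.coe_mulLeft, permMap_cross, Equiv.Perm.sign_mul, Equiv.Perm.sign_ofSubtype]
    push_cast
    rw [mul_comm (((Equiv.Perm.sign ρ : ℤ) : ℚ))]
    rfl
  have h2 : (Fintype.card (Equiv.Perm A) : ℚ) • altC a = ∑ σ : Equiv.Perm ι,
      ((Equiv.Perm.sign σ : ℤ) : ℚ) • permMap σ (∑ ρ : Equiv.Perm A,
        ((Equiv.Perm.sign ρ : ℤ) : ℚ) • cross (fun j => a (Equiv.Perm.ofSubtype ρ j))) := by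
    have h3 : (Fintype.card (Equiv.Perm A) : ℚ) • altC a = ∑ _ρ : Equiv.Perm A, altC a := by
      rw [Finset.sum_const, Finset.card_univ, Nat.cast_smul_eq_nsmul]
    rw [h3, Finset.sum_congr rfl fun ρ _ => h1 ρ, Finset.sum_comm]
    refine Finset.sum_congr rfl fun σ _ => ?_
    rw [map_sum, Finset.smul_sum]
    refine Finset.sum_congr rfl fun ρ _ => ?_
    rw [map_smul, smul_smul]
  have h4 : (Fintype.card (Equiv.Perm A) : ℚ) • altC a ∈ RatQ (ι → X) := by
    rw [h2]
    exact Submodule.sum_mem _ fun σ _ => Submodule.smul_mem _ _ (permMap_mem σ h)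
  exact (Submodule.smul_mem_iff _ (Nat.cast_ne_zero.2 Fintype.card_ne_zero)).1 h4

/-- Exterior products with variable factors at the positions in `A`. -/
noncomputable def subCross {κ : Type} (A : Finset ι) (e : κ ≃ A) (a : ι → X →₀ ℚ) :
    MultilinearMap ℚ (fun _ : κ => X →₀ ℚ) ((ι → X) →₀ ℚ) :=
  ((crossM ι X).domDomRestrict (fun i => i ∈ A) fun i => a i).domDomCongr e.symm

theorem subCross_apply {κ : Type} (A : Finset ι) (e : κ ≃ A) (a : ι → X →₀ ℚ)
    (v : κ → X →₀ ℚ) : subCross A e a v =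
      cross fun i => if h : i ∈ A then v (e.symm ⟨i, h⟩) else a i := by
  rfl

end perm

section types

variable {F₁ F₂ : Type} [Field F₁] [Algebra ℂ F₁] [IsFF ℂ F₁] [Field F₂] [Algebra ℂ F₂]
  [IsFF ℂ F₂] {ι : Type} [Fintype ι] [DecidableEq ι]

/-- Products of more than `g₁ g₂` cycles of the same type. -/
theorem sub_type {W₁ : Place ℂ F₁ → Place ℂ F₁ →₀ ℚ} {W₂ : Place ℂ F₂ → Place ℂ F₂ →₀ ℚ}
    {g₁ g₂ : ℕ} (hk₁ : Kills W₁ g₁) (hk₂ : Kills W₂ g₂) (hf₁ : W₁ ∈ Fam F₁ (Place ℂ F₁))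
    (hf₂ : W₂ ∈ Fam F₂ (Place ℂ F₂)) (o₁ : Place ℂ F₁) (o₂ : Place ℂ F₂) (A : Finset ι)
    (hA : g₁ * g₂ < A.card) (x : ι → Place ℂ F₁) (y : ι → Place ℂ F₂)
    (a : ι → Place ℂ F₁ × Place ℂ F₂ →₀ ℚ)
    (ha : ∀ i ∈ A, a i = box (W₁ (x i) - W₁ o₁) (W₂ (y i) - W₂ o₂)) :
    ∑ ρ : Equiv.Perm A, ((Equiv.Perm.sign ρ : ℤ) : ℚ) •
      cross (fun j => a (Equiv.Perm.ofSubtype ρ j)) ∈ RatQ (ι → Place ℂ F₁ × Place ℂ F₂) := by
  classical
  obtain ⟨m, hm⟩ : ∃ m, Fintype.card A = m := ⟨_, rfl⟩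
  obtain e := (Fintype.equivFinOfCardEq hm).symm
  rw [Fintype.card_coe] at hm
  let N := RatQ (ι → Place ℂ F₁ × Place ℂ F₂)
  -- the multilinear map with values in the quotient
  let Φ : MultilinearMap ℚ (fun _ : Fin m => Place ℂ F₁ × Place ℂ F₂ →₀ ℚ)
      (((ι → Place ℂ F₁ × Place ℂ F₂) →₀ ℚ) ⧸ N) := N.mkQ.compMultilinearMap (subCross A e a)
  have hΦ : ∀ v, Φ v = N.mkQ (cross fun i => if h : i ∈ A then v (e.symm ⟨i, h⟩) else a i) :=
    fun v => rfl
  let al : Fin m → Place ℂ F₁ →₀ ℚ := fun j => W₁ (x (e j)) - W₁ o₁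
  let be : Fin m → Place ℂ F₂ →₀ ℚ := fun j => W₂ (y (e j)) - W₂ o₂
  let z : Equiv.Perm (Fin m) → Equiv.Perm (Fin m) → (((ι → Place ℂ F₁ × Place ℂ F₂) →₀ ℚ) ⧸ N) :=
    fun σ τ => Φ fun j => box (al (σ j)) (be (τ j))
  -- families
  have hfam : ∀ (L : Type) [Field L] [Algebra ℂ L] [IsFF ℂ L] (h : L), h ≠ 0 →
      ∀ c : Fin m → Place ℂ L → Place ℂ F₁ × Place ℂ F₂ →₀ ℚ,
      (∀ j, c j ∈ Fam L (Place ℂ F₁ × Place ℂ F₂)) →
      (divisor ℂ h).sum (fun P n => (n : ℚ) • Φ fun j => c j P) = 0 := by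
    intro L _ _ _ h hh c hc
    have h1 : dv h (fun P => cross fun i => (if hi : i ∈ A then c (e.symm ⟨i, hi⟩) P else a i)) ∈
        RatQ (ι → Place ℂ F₁ × Place ℂ F₂) := by
      refine dv_cross_mem hh (fun i P => if hi : i ∈ A then c (e.symm ⟨i, hi⟩) P else a i)
        fun i => ?_
      by_cases hi : i ∈ A
      · simp only [hi, dif_pos]
        exact hc _
      · simp only [hi, dif_neg, not_false_eq_true]
        exact fam_const _
    rw [← Submodule.Quotient.mk_eq_zero, ← Submodule.mkQ_apply] at h1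
    rw [← h1, dv, Finsupp.sum, Finsupp.sum, map_sum]
    refine Finset.sum_congr rfl fun P _ => ?_
    rw [map_smul]
    rfl
  have key := Pool.Agent.R904.Voi.alt_two (n := m) (a := g₁) (b := g₂)
    (by rw [← hm]; exact hA) z ?_ ?_
  · -- the conclusion
    rw [← Submodule.Quotient.mk_eq_zero, ← Submodule.mkQ_apply, ← key, map_sum]
    refine (Fintype.sum_equiv e.permCongr _ _ fun σ => ?_).symm
    rw [map_smul]
    congr 1
    · rw [Equiv.Perm.sign_permCongr]
    · change Φ _ = _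
      rw [hΦ]
      congr 2
      funext i
      by_cases hi : i ∈ A
      · rw [dif_pos hi, Equiv.Perm.ofSubtype_apply_of_mem _ hi, ha _ (Subtype.coe_prop _)]
        simp only [al, be]
        rw [Equiv.permCongr_apply]
      · rw [dif_neg hi, Equiv.Perm.ofSubtype_apply_of_not_mem _ hi]
  · -- symmetrizations of the first factors
    intro A' hA' σ τ
    let Ψ := Φ.compLinearMap fun j => boxL (X := Place ℂ F₁) (be (τ j))
    have hR : PRel Ψ W₁ := by
      intro B _ v h hh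
      refine hfam F₁ h hh (fun j P => box (B.piecewise (fun _ => W₁ P) v j) (be (τ j)))
        fun j => ?_
      by_cases hj : j ∈ B
      · simp only [Finset.piecewise_eq_of_mem _ _ _ hj]
        exact fam_box hf₁ (fam_const _)
      · simp only [Finset.piecewise_eq_of_notMem _ _ _ hj]
        exact fam_const _
    have h1 := hk₁ _ _ Ψ hR A' (by rw [hA']; exact Nat.lt_succ_self _) o₁
      (fun j => x (e (σ j))) (fun j => al (σ j))
    rw [← h1]
    refine Finset.sum_congr rfl fun ρ _ => ?_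
    change Φ _ = Φ _
    congr 1
    funext j
    rw [Equiv.Perm.mul_apply, boxL_apply]
    congr 1
    by_cases hj : j ∈ A'
    · rw [Finset.piecewise_eq_of_mem _ _ _ hj]
    · rw [Finset.piecewise_eq_of_notMem _ _ _ hj, Equiv.Perm.ofSubtype_apply_of_not_mem _ hj]
  · -- symmetrizations of the second factors
    intro A' hA' σ τ
    let Ψ := Φ.compLinearMap fun j => boxR (Y := Place ℂ F₂) (al (σ j))
    have hR : PRel Ψ W₂ := by
      intro B _ v h hh
      refine hfam F₂ h hh (fun j P => box (al (σ j)) (B.piecewise (fun _ => W₂ P) v j))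
        fun j => ?_
      by_cases hj : j ∈ B
      · simp only [Finset.piecewise_eq_of_mem _ _ _ hj]
        exact fam_box (fam_const _) hf₂
      · simp only [Finset.piecewise_eq_of_notMem _ _ _ hj]
        exact fam_const _
    have h1 := hk₂ _ _ Ψ hR A' (by rw [hA']; exact Nat.lt_succ_self _) o₂
      (fun j => y (e (τ j))) (fun j => be (τ j))
    rw [← h1]
    refine Finset.sum_congr rfl fun ρ _ => ?_
    change Φ _ = Φ _
    congr 1
    funext j
    rw [Equiv.Perm.mul_apply, boxR_apply]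
    congr 1
    by_cases hj : j ∈ A'
    · rw [Finset.piecewise_eq_of_mem _ _ _ hj]
    · rw [Finset.piecewise_eq_of_notMem _ _ _ hj, Equiv.Perm.ofSubtype_apply_of_not_mem _ hj]

end types

end Pool.Agent.H46Z
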