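import Pool.Agent.H46Z.Defs
import Pool.Agent.Helper386.D5V.Helper386_FF_Riemann

/-!
# Symmetrized products of divisors on a curve

`F` is the function field of a smooth projective curve over `ℂ`; its points are the places. Let `Θ` be
a function of `m` points which is killed by the principal divisors in any set of coordinates.
The sum of the values of `Θ` at all arrangements of `N = m` points depends only on the linear
equivalence class of the sum of the points (`emb_sum`), so it is zero if `N` is greater than the genus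
and `Θ` vanishes as soon as one of the coordinates is a given point (`core`).
-/

set_option autoImplicit false

open FF Module

namespace Pool.Agent.H46Z

section genus

variable {F : Type*} [Field F] [Algebra ℂ F] [IsFF ℂ F]

theorem deg_one (P : Place ℂ F) : P.deg = 1 := by
  have h : Function.Bijective (algebraMap ℂ P.RF) :=
    IsAlgClosed.algebraMap_bijective_of_isIntegral
  have : (⊥ : Subalgebra ℂ P.RF) = ⊤ := by
    rw [eq_top_iff]
    intro c _
    obtain ⟨d, rfl⟩ := h.2 c
    exact Subalgebra.algebraMap_mem _ d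
  unfold Place.deg
  exact Subalgebra.bot_eq_top_iff_finrank_eq_one.1 this

theorem ddeg_eq_sum (D : Place ℂ F →₀ ℤ) : ddeg D = D.sum fun _ n => n := by
  unfold ddeg
  refine Finsupp.sum_congr fun P _ => ?_
  rw [deg_one, Nat.cast_one, mul_one]

theorem genus_eq : genus F =
    (sSup (Set.range fun D : Place ℂ F →₀ ℤ => ddeg D - ell D + 1)).toNat := by
  unfold genus
  simp only [ddeg_eq_sum]

theorem le_ell (D : Place ℂ F →₀ ℤ) : ddeg D + 1 - genus F ≤ ell D := by
  obtain ⟨γ, N, h1, -⟩ := riemann ℂ F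
  have hb : BddAbove (Set.range fun D : Place ℂ F →₀ ℤ => ddeg D - ell D + 1) := by
    refine ⟨γ + 1, ?_⟩
    rintro _ ⟨E, rfl⟩
    have := h1 E
    simp only
    omega
  have h2 : ddeg D - ell D + 1 ≤ sSup (Set.range fun D : Place ℂ F →₀ ℤ => ddeg D - ell D + 1) :=
    le_csSup hb ⟨D, rfl⟩
  have h3 := Int.self_le_toNat (sSup (Set.range fun D : Place ℂ F →₀ ℤ => ddeg D - ell D + 1))
  rw [genus_eq]
  omega

theorem ddeg_single_one (P : Place ℂ F) : ddeg (Finsupp.single P 1 : Place ℂ F →₀ ℤ) = 1 := by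
  rw [ddeg_single, deg_one]
  rfl

/-- The sum of a family of points. -/
noncomputable def pts {ι : Type*} [Fintype ι] (x : ι → Place ℂ F) : Place ℂ F →₀ ℤ :=
  ∑ i, Finsupp.single (x i) 1

theorem ddeg_pts {ι : Type*} [Fintype ι] (x : ι → Place ℂ F) : ddeg (pts x) = Fintype.card ι := by
  classical
  unfold pts
  have : ∀ s : Finset ι, ddeg (∑ i ∈ s, (Finsupp.single (x i) 1 : Place ℂ F →₀ ℤ)) = s.card := by
    intro s
    induction s using Finset.induction_on with
    | empty => simp [ddeg_zero]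
    | insert a s ha ih =>
      rw [Finset.sum_insert ha, ddeg_add, ih, ddeg_single_one, Finset.card_insert_of_notMem ha]
      push_cast
      ring
  rw [this, Finset.card_univ]

/-- An effective divisor of degree `g` is a sum of `g` points. -/
theorem exists_pts : ∀ (g : ℕ) (D : Place ℂ F →₀ ℤ), 0 ≤ D → ddeg D = g →
    ∃ x : Fin g → Place ℂ F, D = pts x := by
  intro g
  induction g with
  | zero =>
    intro D hD h
    refine ⟨Fin.elim0, ?_⟩
    by_contra hne
    have hne' : D ≠ 0 := by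
      intro h0
      apply hne
      rw [h0]
      simp [pts]
    obtain ⟨P, hP⟩ := Finsupp.ne_iff.1 hne'
    have h1 : Finsupp.single P 1 ≤ D := by
      intro Q
      by_cases hQ : Q = P
      · subst hQ
        have := hD Q
        simp only [Finsupp.coe_zero, Pi.zero_apply, Finsupp.single_eq_same] at *
        omega
      · classical
        rw [Finsupp.single_apply, if_neg (Ne.symm hQ)]
        exact hD Q
    have h2 := ddeg_mono h1
    rw [ddeg_single_one, h] at h2
    simp at h2
  | succ g ih =>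
    intro D hD h
    have hne' : D ≠ 0 := by
      rintro rfl
      rw [ddeg_zero] at h
      push_cast at h
      omega
    obtain ⟨P, hP⟩ := Finsupp.ne_iff.1 hne'
    have h1 : Finsupp.single P 1 ≤ D := by
      intro Q
      by_cases hQ : Q = P
      · subst hQ
        have := hD Q
        simp only [Finsupp.coe_zero, Pi.zero_apply, Finsupp.single_eq_same] at *
        omega
      · classical
        rw [Finsupp.single_apply, if_neg (Ne.symm hQ)]
        exact hD Q
    obtain ⟨x, hx⟩ := ih (D - Finsupp.single P 1) (sub_nonneg.2 h1) (by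
      rw [ddeg_sub, ddeg_single_one, h]
      push_cast
      ring)
    refine ⟨Fin.cons P x, ?_⟩
    unfold pts
    rw [Fin.sum_univ_succ, Fin.cons_zero]
    simp only [Fin.cons_succ]
    change D = _ + pts x
    rw [← hx]
    abel

end genus

section rel

variable {F : Type*} [Field F] [Algebra ℂ F] [IsFF ℂ F] {M : Type*} [AddCommGroup M]

/-- The function `Θ` of a family of points is killed by principal divisors in any nonempty set `B`
of coordinates. -/
def Rel {ι : Type*} (Θ : (ι → Place ℂ F) → M) : Prop :=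
  ∀ B : Set ι, B.Nonempty → ∀ h : F, h ≠ 0 → ∀ y : Place ℂ F → ι → Place ℂ F,
    (∀ P i, i ∈ B → y P i = P) → (∀ P Q i, i ∉ B → y P i = y Q i) →
    (divisor ℂ h).sum (fun P n => n • Θ (y P)) = 0

theorem Rel.cons {m : ℕ} {Θ : (Fin (m + 1) → Place ℂ F) → M} (hΘ : Rel Θ) (P : Place ℂ F) :
    Rel fun z : Fin m → Place ℂ F => Θ (Fin.cons P z) := by
  intro B hB h hh y hy1 hy2
  obtain ⟨b, hb⟩ := hB
  refine hΘ (Fin.succ '' B) ⟨_, b, hb, rfl⟩ h hh (fun Q => Fin.cons P (y Q)) ?_ ?_
  · rintro Q _ ⟨i, hi, rfl⟩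
    rw [Fin.cons_succ]
    exact hy1 Q i hi
  · intro Q Q' i hi
    refine Fin.cases ?_ (fun j hj => ?_) i hi
    · intro _
      rw [Fin.cons_zero, Fin.cons_zero]
    · rw [Fin.cons_succ, Fin.cons_succ]
      exact hy2 Q Q' j fun h => hj ⟨j, h, rfl⟩

theorem Rel.merge {m : ℕ} {Θ : (Fin (m + 1) → Place ℂ F) → M} (hΘ : Rel Θ) (a : Fin m) :
    Rel fun z : Fin m → Place ℂ F => Θ (Fin.cons (z a) z) := by
  intro B hB h hh y hy1 hy2
  obtain ⟨b, hb⟩ := hB
  by_cases ha : a ∈ B
  · refine hΘ (insert 0 (Fin.succ '' B)) ⟨0, Set.mem_insert _ _⟩ h hh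
      (fun Q => Fin.cons (y Q a) (y Q)) ?_ ?_
    · rintro Q i (rfl | ⟨j, hj, rfl⟩)
      · rw [Fin.cons_zero]
        exact hy1 Q a ha
      · rw [Fin.cons_succ]
        exact hy1 Q j hj
    · intro Q Q' i hi
      refine Fin.cases ?_ (fun j hj => ?_) i hi
      · intro h0
        exact absurd (Set.mem_insert _ _) h0
      · rw [Fin.cons_succ, Fin.cons_succ]
        exact hy2 Q Q' j fun h => hj (Set.mem_insert_of_mem _ ⟨j, h, rfl⟩)
  · refine hΘ (Fin.succ '' B) ⟨_, b, hb, rfl⟩ h hh
      (fun Q => Fin.cons (y Q a) (y Q)) ?_ ?_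
    · rintro Q _ ⟨i, hi, rfl⟩
      rw [Fin.cons_succ]
      exact hy1 Q i hi
    · intro Q Q' i hi
      refine Fin.cases ?_ (fun j hj => ?_) i hi
      · intro _
        rw [Fin.cons_zero, Fin.cons_zero]
        exact hy2 Q Q' a ha
      · rw [Fin.cons_succ, Fin.cons_succ]
        exact hy2 Q Q' j fun h => hj ⟨j, h, rfl⟩

/-- The linear extension of a function of one point. -/
noncomputable def ext1 (G : Place ℂ F → M) : (Place ℂ F →₀ ℤ) →+ M :=
  Finsupp.liftAddHom fun P => (zmultiplesHom M) (G P)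

theorem ext1_apply (G : Place ℂ F → M) (D : Place ℂ F →₀ ℤ) :
    ext1 G D = D.sum fun P n => n • G P := by
  rw [ext1, Finsupp.liftAddHom_apply]
  rfl

theorem ext1_pts {ι : Type*} [Fintype ι] (G : Place ℂ F → M) (x : ι → Place ℂ F) :
    ext1 G (pts x) = ∑ i, G (x i) := by
  rw [pts, map_sum]
  refine Finset.sum_congr rfl fun i _ => ?_
  rw [ext1_apply, Finsupp.sum_single_index (by rw [zero_smul]), one_smul]

theorem sum_succ_emb {α : Type*} [Fintype α] [DecidableEq α] {m : ℕ}
    (G : α → (Fin m ↪ α) → M) :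
    ∑ f : Fin (m + 1) ↪ α, G (f 0) ((Fin.succEmb m).trans f) =
      ∑ f : Fin m ↪ α, ∑ i, G i f - ∑ a, ∑ f : Fin m ↪ α, G (f a) f := by
  classical
  have h1 : ∀ f : Fin m ↪ α, ∑ i, G i f - ∑ a, G (f a) f =
      ∑ i : {i // i ∉ Set.range f}, G i f := by
    intro f
    have h2 : ∑ a, G (f a) f = ∑ i ∈ Finset.univ.map f, G i f := by
      rw [Finset.sum_map]
    rw [h2, sub_eq_iff_eq_add]
    have h3 : ∑ i : {i // i ∉ Set.range f}, G i f = ∑ i ∈ (Finset.univ.map f)ᶜ, G i f := by
      symm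
      refine Finset.sum_subtype _ (fun i => ?_) _
      simp
    rw [h3, Finset.sum_compl_add_sum]
  rw [Finset.sum_comm (s := Finset.univ (α := Fin m)), ← Finset.sum_sub_distrib,
    Finset.sum_congr rfl fun f _ => h1 f]
  have h4 := Fintype.sum_equiv (Equiv.embeddingFinSucc m α)
    (fun f : Fin (m + 1) ↪ α => G (f 0) ((Fin.succEmb m).trans f))
    (fun p : Σ (e : Fin m ↪ α), {i // i ∉ Set.range e} => G p.2 p.1) (fun f => rfl)
  rw [h4, Fintype.sum_sigma]

/-- The sum of the values of `Θ` at all the `m`-tuples of distinct members of a family of `N` points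
depends only on the linear equivalence class of the sum of the points. -/
theorem emb_sum {N : ℕ} (x x' : Fin N → Place ℂ F) (h : F) (hh : h ≠ 0)
    (hx : pts x' = pts x + divisor ℂ h) : ∀ (m : ℕ) (Θ : (Fin m → Place ℂ F) → M), Rel Θ →
      ∑ f : Fin m ↪ Fin N, Θ (x ∘ f) = ∑ f : Fin m ↪ Fin N, Θ (x' ∘ f) := by
  intro m
  induction m with
  | zero =>
    intro Θ _
    refine Finset.sum_congr rfl fun f _ => ?_
    congr 1
    exact Subsingleton.elim _ _
  | succ m ih =>
    intro Θ hΘ
    have key : ∀ z : Fin N → Place ℂ F, ∑ f : Fin (m + 1) ↪ Fin N, Θ (z ∘ f) =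
        ∑ f : Fin m ↪ Fin N, ∑ i, Θ (Fin.cons (z i) (z ∘ f)) -
          ∑ a, ∑ f : Fin m ↪ Fin N, Θ (Fin.cons ((z ∘ f) a) (z ∘ f)) := by
      intro z
      have e1 := sum_succ_emb (fun i f => Θ (Fin.cons (z i) (z ∘ f)))
      refine Eq.trans ?_ e1
      refine Finset.sum_congr rfl fun f _ => ?_
      congr 1
      funext i
      refine Fin.cases ?_ (fun j => ?_) i
      · rw [Fin.cons_zero]
        rfl
      · rw [Fin.cons_succ]
        rfl
    rw [key, key]
    congr 1
    · rw [Finset.sum_comm, Finset.sum_comm (s := Finset.univ (α := Fin m ↪ Fin N))]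
      have h1 : ∀ P, ∑ f : Fin m ↪ Fin N, Θ (Fin.cons P (x ∘ f)) =
          ∑ f : Fin m ↪ Fin N, Θ (Fin.cons P (x' ∘ f)) := fun P => ih _ (hΘ.cons P)
      rw [Finset.sum_congr rfl fun i _ => h1 (x i)]
      let G : Place ℂ F → M := fun P => ∑ f : Fin m ↪ Fin N, Θ (Fin.cons P (x' ∘ f))
      change ∑ i, G (x i) = ∑ i, G (x' i)
      rw [← ext1_pts, ← ext1_pts, hx, map_add]
      have h2 : ext1 G (divisor ℂ h) = 0 := by
        rw [ext1_apply]
        simp only [G]
        have h3 : ∀ (P : Place ℂ F) (n : ℤ), n • ∑ f : Fin m ↪ Fin N, Θ (Fin.cons P (x' ∘ f)) =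
            ∑ f : Fin m ↪ Fin N, n • Θ (Fin.cons P (x' ∘ f)) := fun P n => Finset.smul_sum
        simp only [h3, Finsupp.sum]
        rw [Finset.sum_comm]
        refine Finset.sum_eq_zero fun f _ => ?_
        refine hΘ {0} ⟨0, rfl⟩ h hh (fun P => Fin.cons P (x' ∘ f)) ?_ ?_
        · intro P i hi
          rw [Set.mem_singleton_iff.1 hi, Fin.cons_zero]
        · intro P Q i hi
          refine Fin.cases ?_ (fun j _ => ?_) i hi
          · intro h0
            exact absurd rfl h0
          · rw [Fin.cons_succ, Fin.cons_succ]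
      rw [h2, add_zero]
    · exact Finset.sum_congr rfl fun a _ => ih _ (hΘ.merge a)

/-- **Symmetrized products of more than `g` points.** -/
theorem core {g : ℕ} (hg : genus F ≤ g) (Θ : (Fin (g + 1) → Place ℂ F) → M) (hΘ : Rel Θ)
    (o : Place ℂ F) (ho : ∀ x i, x i = o → Θ x = 0) (x : Fin (g + 1) → Place ℂ F) :
    ∑ σ : Equiv.Perm (Fin (g + 1)), Θ (x ∘ σ) = 0 := by
  classical
  have hconv : ∀ z : Fin (g + 1) → Place ℂ F, ∑ σ : Equiv.Perm (Fin (g + 1)), Θ (z ∘ σ) =
      ∑ f : Fin (g + 1) ↪ Fin (g + 1), Θ (z ∘ f) := by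
    intro z
    refine Fintype.sum_equiv (Equiv.embeddingEquivOfFinite (Fin (g + 1))).symm
      (fun σ : Equiv.Perm (Fin (g + 1)) => Θ (z ∘ σ))
      (fun f : Fin (g + 1) ↪ Fin (g + 1) => Θ (z ∘ f)) fun f => ?_
    rfl
  -- the Riemann inequality
  have h1 : 0 < ell (pts x - Finsupp.single o 1) := by
    have h2 := le_ell (pts x - Finsupp.single o 1)
    rw [ddeg_sub, ddeg_pts, ddeg_single_one, Fintype.card_fin] at h2
    push_cast at h2
    omega
  obtain ⟨h, hh, hh0⟩ := exists_ne_zero_of_ell_pos h1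
  rw [mem_LL' hh0] at hh
  obtain ⟨x'', hx''⟩ := exists_pts g _ hh (by
    rw [ddeg_add, ddeg_divisor, ddeg_sub, ddeg_pts, ddeg_single_one, Fintype.card_fin]
    push_cast
    ring)
  have hx : pts (Fin.cons o x'' : Fin (g + 1) → Place ℂ F) = pts x + divisor ℂ h := by
    have e1 : pts (Fin.cons o x'' : Fin (g + 1) → Place ℂ F) = Finsupp.single o 1 + pts x'' := by
      unfold pts
      rw [Fin.sum_univ_succ, Fin.cons_zero]
      simp only [Fin.cons_succ]
    rw [e1, ← hx'']
    abel
  rw [hconv, emb_sum x _ h hh0 hx _ Θ hΘ, ← hconv]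
  refine Finset.sum_eq_zero fun σ _ => ho _ (σ.symm 0) ?_
  rw [Function.comp_apply, Equiv.apply_symm_apply, Fin.cons_zero]

/-- The same for a finite set of coordinates. -/
theorem core' {ι : Type*} [Fintype ι] [DecidableEq ι] (hg : genus F < Fintype.card ι)
    (Θ : (ι → Place ℂ F) → M) (hΘ : Rel Θ) (o : Place ℂ F) (ho : ∀ x i, x i = o → Θ x = 0)
    (x : ι → Place ℂ F) : ∑ σ : Equiv.Perm ι, Θ (x ∘ σ) = 0 := by
  obtain ⟨g, hg'⟩ : ∃ g, Fintype.card ι = g + 1 := ⟨Fintype.card ι - 1, by omega⟩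
  obtain e := (Fintype.equivFinOfCardEq hg').symm
  have h1 := core (F := F) (g := g) (by omega) (fun z => Θ (z ∘ e.symm)) ?_ o ?_ (x ∘ e)
  · rw [← h1]
    refine (Fintype.sum_equiv e.permCongr _ _ fun σ => ?_).symm
    refine congrArg Θ ?_
    funext i
    simp [Equiv.permCongr_apply]
  · intro B hB h hh y hy1 hy2
    refine hΘ (e.symm ⁻¹' B) (hB.preimage e.symm.surjective) h hh (fun P => y P ∘ e.symm) ?_ ?_
    · intro P i hi
      exact hy1 P _ hi
    · intro P Q i hi
      exact hy2 P Q _ hi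
  · intro z i hz
    refine ho _ (e i) ?_
    rw [Function.comp_apply, Equiv.symm_apply_apply]
    exact hz

end rel

end Pool.Agent.H46Z
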