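import Pool.Agent.H46Z.Core

/-!
# Zero-cycles and rational equivalence on products of curves

`Points X` is the datum, for a set `X` (of points of a variety), of the maps to `X` from the set of
points of a smooth projective curve which are given by morphisms. A smooth projective curve over `ℂ`
is given by its function field `L`, its points are the places of `L`.

* For the curve with function field `F` the morphisms are the constants and the maps induced by the
  embeddings of `F` in `L` (restriction of places).
* For products and powers the morphisms are the families of morphisms.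

The group `Rat X` of the zero-cycles rationally equivalent to zero is generated by the cycles
`m_* div(h)`, for all smooth projective curves, all rational functions `h ≠ 0` and all morphisms `m`.
-/

set_option autoImplicit false

open FF Module

namespace Pool.Agent.H46Z

theorem cross_apply {ι X R : Type} [Fintype ι] [DecidableEq ι] [CommRing R]
    (a : ι → X →₀ R) (p : ι → X) : cross a p = ∏ j, a j (p j) := rfl

/-- The constants are morphisms. -/
class HasConst (X : Type) [Points X] : Prop where
  const : ∀ {L : Type} [Field L] [Algebra ℂ L] (x : X), IsMor (fun _ : Place ℂ L => x)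

instance (F : Type) [Field F] [Algebra ℂ F] : HasConst (Place ℂ F) where
  const := fun x => Or.inl ⟨x, fun _ => rfl⟩

instance (X Y : Type) [Points X] [Points Y] [HasConst X] [HasConst Y] : HasConst (X × Y) where
  const := fun x => ⟨HasConst.const x.1, HasConst.const x.2⟩

instance (ι X : Type) [Points X] [HasConst X] : HasConst (ι → X) where
  const := fun x j => HasConst.const (x j)

theorem isMor_id (F : Type) [Field F] [Algebra ℂ F] : IsMor (fun P : Place ℂ F => P) :=
  Or.inr ⟨AlgHom.id ℂ F, fun Q => ⟨1, one_pos, fun f => by simp⟩⟩

section rational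

/-- The cycle `m_* div(h)` with rational coefficients. -/
noncomputable def dv {X L : Type} [Field L] [Algebra ℂ L] [IsFF ℂ L] (h : L)
    (c : Place ℂ L → X →₀ ℚ) : X →₀ ℚ :=
  (divisor ℂ h).sum fun P n => (n : ℚ) • c P

/-- The zero-cycles with rational coefficients which are rationally equivalent to zero. -/
noncomputable def RatQ (X : Type) [Points X] : Submodule ℚ (X →₀ ℚ) :=
  Submodule.span ℚ {z | ∃ (L : Type) (_ : Field L) (_ : Algebra ℂ L) (_ : IsFF ℂ L)
    (m : Place ℂ L → X) (h : L), IsMor m ∧ h ≠ 0 ∧ z = dv h fun P => Finsupp.single (m P) 1}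

/-- Extension of the coefficients. -/
noncomputable def toQ (X : Type) : (X →₀ ℤ) →+ (X →₀ ℚ) :=
  Finsupp.mapRange.addMonoidHom (Int.castAddHom ℚ)

theorem toQ_apply {X : Type} (z : X →₀ ℤ) (x : X) : toQ X z x = (z x : ℚ) := rfl

theorem toQ_single {X : Type} (x : X) (n : ℤ) :
    toQ X (Finsupp.single x n) = Finsupp.single x (n : ℚ) := by
  classical
  ext y
  rw [toQ_apply, Finsupp.single_apply, Finsupp.single_apply]
  split_ifs <;> simp

theorem toQ_injective (X : Type) : Function.Injective (toQ X) := by
  intro z w h
  ext x
  have := DFunLike.congr_fun h x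
  rw [toQ_apply, toQ_apply] at this
  exact_mod_cast this

theorem toQ_mapDomain {X L : Type} [Field L] [Algebra ℂ L] [IsFF ℂ L] (h : L)
    (m : Place ℂ L → X) :
    toQ X ((divisor ℂ h).mapDomain m) = dv h fun P => Finsupp.single (m P) 1 := by
  rw [Finsupp.mapDomain, Finsupp.sum, map_sum, dv, Finsupp.sum]
  refine Finset.sum_congr rfl fun P _ => ?_
  rw [toQ_single, Finsupp.smul_single, smul_eq_mul, mul_one]

/-- A cycle with integral coefficients which is rationally equivalent to zero with rational
coefficients has a positive multiple which is rationally equivalent to zero. -/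
theorem exists_mul_mem {X : Type} [Points X] (z : X →₀ ℤ) (hz : toQ X z ∈ RatQ X) :
    ∃ k : ℕ, 0 < k ∧ k • z ∈ Rat X := by
  have key : ∀ v ∈ RatQ X, ∃ k : ℕ, 0 < k ∧ ∃ w ∈ Rat X, k • v = toQ X w := by
    intro v hv
    induction hv using Submodule.span_induction with
    | mem v hv =>
      obtain ⟨L, i1, i2, i3, m, h, hm, hh, rfl⟩ := hv
      refine ⟨1, one_pos, (divisor ℂ h).mapDomain m, AddSubgroup.subset_closure
        ⟨L, i1, i2, i3, m, h, hm, hh, rfl⟩, ?_⟩
      rw [one_smul, toQ_mapDomain]
    | zero => exact ⟨1, one_pos, 0, zero_mem _, by simp⟩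
    | add v w _ _ hv hw =>
      obtain ⟨k, hk, a, ha, hka⟩ := hv
      obtain ⟨l, hl, b, hb, hlb⟩ := hw
      refine ⟨k * l, Nat.mul_pos hk hl, l • a + k • b,
        add_mem (AddSubgroup.nsmul_mem _ ha _) (AddSubgroup.nsmul_mem _ hb _), ?_⟩
      rw [smul_add, map_add, map_nsmul, map_nsmul, ← hka, ← hlb, smul_smul, smul_smul, mul_comm l k]
    | smul r v _ hv =>
      obtain ⟨k, hk, a, ha, hka⟩ := hv
      refine ⟨r.den * k, Nat.mul_pos r.den_pos hk, r.num • a, AddSubgroup.zsmul_mem _ ha _, ?_⟩
      rw [map_zsmul, ← hka, ← Nat.cast_smul_eq_nsmul ℚ, ← Int.cast_smul_eq_zsmul ℚ,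
        ← Nat.cast_smul_eq_nsmul ℚ, smul_smul, smul_smul]
      congr 1
      push_cast
      have := Rat.mul_den_eq_num r
      linear_combination (k : ℚ) * this
  obtain ⟨k, hk, w, hw, hkw⟩ := key _ hz
  refine ⟨k, hk, ?_⟩
  rw [← map_nsmul] at hkw
  rwa [toQ_injective X hkw]

variable {ι X : Type} [Fintype ι] [DecidableEq ι]

theorem toQ_cross (a : ι → X →₀ ℤ) : toQ _ (cross a) = cross fun j => toQ X (a j) := by
  ext p
  rw [toQ_apply, cross_apply, cross_apply]
  push_cast
  rfl

/-- The exterior product as a multilinear map. -/
noncomputable def crossM (ι X : Type) [Fintype ι] [d : DecidableEq ι] :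
    MultilinearMap ℚ (fun _ : ι => X →₀ ℚ) ((ι → X) →₀ ℚ) where
  toFun a := cross a
  map_update_add' := by
    intro d' a i x y
    obtain rfl : d' = d := Subsingleton.elim _ _
    ext p
    rw [Finsupp.add_apply, cross_apply, cross_apply, cross_apply]
    have h1 : ∀ z : X →₀ ℚ, ∏ j, (Function.update a i z) j (p j) =
        z (p i) * ∏ j ∈ Finset.univ.erase i, a j (p j) := by
      intro z
      rw [← Finset.mul_prod_erase _ _ (Finset.mem_univ i)]
      congr 1
      · simp
      · refine Finset.prod_congr rfl fun j hj => ?_
        rw [Function.update_of_ne (Finset.ne_of_mem_erase hj)]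
    rw [h1, h1, h1, Finsupp.add_apply, add_mul]
  map_update_smul' := by
    intro d' a i c x
    obtain rfl : d' = d := Subsingleton.elim _ _
    ext p
    rw [Finsupp.smul_apply, cross_apply, cross_apply]
    have h1 : ∀ z : X →₀ ℚ, ∏ j, (Function.update a i z) j (p j) =
        z (p i) * ∏ j ∈ Finset.univ.erase i, a j (p j) := by
      intro z
      rw [← Finset.mul_prod_erase _ _ (Finset.mem_univ i)]
      congr 1
      · simp
      · refine Finset.prod_congr rfl fun j hj => ?_
        rw [Function.update_of_ne (Finset.ne_of_mem_erase hj)]
    rw [h1, h1, Finsupp.smul_apply, smul_eq_mul, smul_eq_mul, mul_assoc]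

theorem crossM_apply (a : ι → X →₀ ℚ) : crossM ι X a = cross a := rfl

theorem cross_single (p : ι → X) : cross (fun j => Finsupp.single (p j) (1 : ℚ)) =
    Finsupp.single p 1 := by
  classical
  ext q
  rw [cross_apply, Finsupp.single_apply]
  split_ifs with h
  · subst h
    refine Finset.prod_eq_one fun j _ => ?_
    rw [Finsupp.single_eq_same]
  · obtain ⟨j, hj⟩ := Function.ne_iff.1 h
    refine Finset.prod_eq_zero (Finset.mem_univ j) ?_
    rw [Finsupp.single_apply, if_neg hj]

/-- A multilinear map with values in a submodule on generators. -/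
theorem multilin_mem {ι V W : Type} [Fintype ι] [DecidableEq ι] [AddCommGroup V] [Module ℚ V]
    [AddCommGroup W] [Module ℚ W] (f : MultilinearMap ℚ (fun _ : ι => V) W) (N : Submodule ℚ W)
    (S : ι → Set V) (h : ∀ v : ι → V, (∀ i, v i ∈ S i) → f v ∈ N) (v : ι → V)
    (hv : ∀ i, v i ∈ Submodule.span ℚ (S i)) : f v ∈ N := by
  have key : ∀ s : Finset ι, ∀ v : ι → V, (∀ i ∈ s, v i ∈ Submodule.span ℚ (S i)) →
      (∀ i, i ∉ s → v i ∈ S i) → f v ∈ N := by
    intro s
    induction s using Finset.induction_on with
    | empty => exact fun v _ h2 => h v fun i => h2 i (Finset.notMem_empty _)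
    | insert a s ha ih =>
      intro v h1 h2
      have h3 : ∀ w ∈ Submodule.span ℚ (S a), f (Function.update v a w) ∈ N := by
        intro w hw
        induction hw using Submodule.span_induction with
        | mem w hw =>
          refine ih _ (fun i hi => ?_) (fun i hi => ?_)
          · rw [Function.update_of_ne (ne_of_mem_of_not_mem hi ha)]
            exact h1 i (Finset.mem_insert_of_mem hi)
          · by_cases hia : i = a
            · subst hia
              rwa [Function.update_self]
            · rw [Function.update_of_ne hia]
              refine h2 i fun hh => ?_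
              rcases Finset.mem_insert.1 hh with hh | hh
              · exact hia hh
              · exact hi hh
        | zero =>
          rw [f.map_update_zero]
          exact zero_mem _
        | add x y _ _ hx hy =>
          rw [f.map_update_add]
          exact add_mem hx hy
        | smul r x _ hx =>
          rw [f.map_update_smul]
          exact N.smul_mem _ hx
      have h4 := h3 (v a) (h1 a (Finset.mem_insert_self _ _))
      rwa [Function.update_eq_self] at h4
  exact key Finset.univ v (fun i _ => hv i) fun i hi => absurd (Finset.mem_univ _) hi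

variable [Points X]

/-- The families of zero-cycles on `X` parametrized by a curve. -/
noncomputable def Fam (L : Type) [Field L] [Algebra ℂ L] (X : Type) [Points X] :
    Submodule ℚ (Place ℂ L → X →₀ ℚ) :=
  Submodule.span ℚ {c | ∃ m : Place ℂ L → X, IsMor m ∧ c = fun P => Finsupp.single (m P) 1}

section fam

variable {L : Type} [Field L] [Algebra ℂ L]

theorem fam_mor {m : Place ℂ L → X} (hm : IsMor m) : (fun P => Finsupp.single (m P) 1) ∈ Fam L X :=
  Submodule.subset_span ⟨m, hm, rfl⟩

theorem fam_const [HasConst X] (a : X →₀ ℚ) : (fun _ => a) ∈ Fam L X := by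
  induction a using Finsupp.induction_linear with
  | zero => exact zero_mem _
  | add a b ha hb => exact add_mem ha hb
  | single x r =>
    have h : (fun _ : Place ℂ L => Finsupp.single x r) =
        r • fun _ : Place ℂ L => Finsupp.single x (1 : ℚ) := by
      funext P
      rw [Pi.smul_apply, Finsupp.smul_single, smul_eq_mul, mul_one]
    rw [h]
    exact Submodule.smul_mem _ _ (fam_mor (HasConst.const x))

variable [IsFF ℂ L]

/-- `dv h` is linear in the family. -/
noncomputable def dvL {Y : Type} (h : L) : (Place ℂ L → Y →₀ ℚ) →ₗ[ℚ] (Y →₀ ℚ) where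
  toFun c := dv h c
  map_add' := by
    intro c d
    unfold dv
    rw [← Finsupp.sum_add]
    refine Finsupp.sum_congr fun P _ => ?_
    rw [Pi.add_apply, smul_add]
  map_smul' := by
    intro r c
    unfold dv
    rw [RingHom.id_apply, Finsupp.smul_sum]
    refine Finsupp.sum_congr fun P _ => ?_
    rw [Pi.smul_apply, smul_comm]

theorem dv_mem {h : L} (hh : h ≠ 0) {c : Place ℂ L → X →₀ ℚ} (hc : c ∈ Fam L X) :
    dv h c ∈ RatQ X := by
  have h1 : Fam L X ≤ (RatQ X).comap (dvL h) := by
    unfold Fam
    rw [Submodule.span_le]
    rintro _ ⟨m, hm, rfl⟩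
    exact Submodule.subset_span ⟨L, _, _, _, m, h, hm, hh, rfl⟩
  exact h1 hc

omit [IsFF ℂ L] in
theorem cross_fam (c : ι → Place ℂ L → X →₀ ℚ) (hc : ∀ j, c j ∈ Fam L X) :
    (fun P => cross fun j => c j P) ∈ Fam L (ι → X) := by
  let f : MultilinearMap ℚ (fun _ : ι => Place ℂ L → X →₀ ℚ) (Place ℂ L → (ι → X) →₀ ℚ) :=
    MultilinearMap.pi fun P => (crossM ι X).compLinearMap fun _ => LinearMap.proj P
  have h1 : ∀ c, f c = fun P => cross fun j => c j P := fun c => rfl
  rw [← h1]
  refine multilin_mem f (Fam L (ι → X))
    (fun _ => {c | ∃ m : Place ℂ L → X, IsMor m ∧ c = fun P => Finsupp.single (m P) 1})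
    (fun c hc => ?_) c hc
  choose m hm hcm using hc
  rw [h1]
  have h2 : (fun P => cross fun j => c j P) = fun P => Finsupp.single (fun j => m j P) (1 : ℚ) := by
    funext P
    rw [← cross_single]
    congr 1
    funext j
    rw [hcm j]
  rw [h2]
  exact fam_mor fun j => hm j

/-- The key lemma: families of exterior products. -/
theorem dv_cross_mem {h : L} (hh : h ≠ 0) (c : ι → Place ℂ L → X →₀ ℚ)
    (hc : ∀ j, c j ∈ Fam L X) : dv h (fun P => cross fun j => c j P) ∈ RatQ (ι → X) :=
  dv_mem hh (cross_fam c hc)

end fam

/-- The exterior product with a cycle rationally equivalent to zero. -/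
theorem cross_mem [HasConst X] (a : ι → X →₀ ℚ) (i : ι) (hi : a i ∈ RatQ X) :
    cross a ∈ RatQ (ι → X) := by
  have h0 : ∀ w ∈ RatQ X, crossM ι X (Function.update a i w) ∈ RatQ (ι → X) := by
    intro w hw
    unfold RatQ at hw
    induction hw using Submodule.span_induction with
    | mem w hw =>
      obtain ⟨L, i1, i2, i3, m, h, hm, hh, rfl⟩ := hw
      have h1 : crossM ι X (Function.update a i (dv h fun P => Finsupp.single (m P) 1)) =
          dv h (fun P => cross fun j => (if j = i then Finsupp.single (m P) 1 else a j)) := by
        unfold dv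
        rw [Finsupp.sum, MultilinearMap.map_update_sum, Finsupp.sum]
        refine Finset.sum_congr rfl fun P _ => ?_
        rw [MultilinearMap.map_update_smul]
        congr 1
        rw [crossM_apply]
        congr 1
        funext j
        rw [Function.update_apply]
      rw [h1]
      refine dv_cross_mem hh (fun j P => if j = i then Finsupp.single (m P) 1 else a j)
        fun j => ?_
      by_cases hj : j = i
      · simp only [hj, if_true]
        exact fam_mor hm
      · simp only [hj, if_false]
        exact fam_const _
    | zero =>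
      rw [MultilinearMap.map_update_zero]
      exact zero_mem _
    | add x y _ _ hx hy =>
      rw [MultilinearMap.map_update_add]
      exact add_mem hx hy
    | smul r x _ hx =>
      rw [MultilinearMap.map_update_smul]
      exact Submodule.smul_mem _ _ hx
  have h1 := h0 _ hi
  rwa [Function.update_eq_self] at h1

/-- The class of an exterior product depends only on the classes of the factors. -/
theorem cross_congr [HasConst X] (a b : ι → X →₀ ℚ) (h : ∀ i, a i - b i ∈ RatQ X) :
    cross a - cross b ∈ RatQ (ι → X) := by
  have key : ∀ s : Finset ι, cross a - cross (s.piecewise b a) ∈ RatQ (ι → X) := by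
    intro s
    induction s using Finset.induction_on with
    | empty => simp [Finset.piecewise_empty]
    | insert i s hi ih =>
      have h1 : cross a - cross ((insert i s).piecewise b a) =
          (cross a - cross (s.piecewise b a)) +
            cross (Function.update (s.piecewise b a) i (a i - b i)) := by
        have h2 : (crossM ι X) (Function.update (s.piecewise b a) i (a i - b i)) =
            (crossM ι X) (Function.update (s.piecewise b a) i (a i)) -
            (crossM ι X) (Function.update (s.piecewise b a) i (b i)) :=
          MultilinearMap.map_update_sub _ _ _ _ _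
        rw [crossM_apply, crossM_apply, crossM_apply] at h2
        rw [h2, ← Finset.piecewise_insert]
        have h3 : Function.update (s.piecewise b a) i (a i) = s.piecewise b a := by
          rw [Function.update_eq_self_iff, Finset.piecewise_eq_of_notMem _ _ _ hi]
        rw [h3]
        abel
      rw [h1]
      refine add_mem ih (cross_mem _ i ?_)
      rw [Function.update_self]
      exact h i
  have h1 := key Finset.univ
  rwa [Finset.piecewise_univ] at h1

end rational

end Pool.Agent.H46Z
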