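import Pool.Agent.Helper386.D5V.Helper386_FF_RR
import Pool.Agent.W619.PQ.Fix

/-!
# Zero-cycles on products of curves and on their quotients: the definitions

A smooth projective curve over `ℂ` is given by its function field `F`, its points are the places
`Place ℂ F`.
-/

set_option autoImplicit false

open FF IntermediateField

namespace Pool.Agent.H46Z

/-- The genus of the curve with the function field `F`: the greatest value of
`deg D - ℓ(D) + 1`, for the divisors `D`. -/
noncomputable def genus (F : Type*) [Field F] [Algebra ℂ F] [IsFF ℂ F] : ℕ :=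
  (sSup (Set.range fun D : Place ℂ F →₀ ℤ => (D.sum fun _ n => n) - ell D + 1)).toNat

/-- A set `X` (the points of a variety) with the set of the maps `Place ℂ L → X` which are given by
the morphisms from smooth projective curves (with function fields `L`). -/
class Points (X : Type) where
  IsMor : ∀ {L : Type} [Field L] [Algebra ℂ L], (Place ℂ L → X) → Prop

export Points (IsMor)

/-- The smooth projective curve with function field `F`: a morphism is constant or given by
an embedding `φ` of `F` in `L`; in the second case the image of the place `Q` of `L` is its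
restriction to `F`, and `e` is the ramification index. -/
instance curvePoints (F : Type) [Field F] [Algebra ℂ F] : Points (Place ℂ F) where
  IsMor := fun {L} _ _ m => (∃ P, ∀ Q, m Q = P) ∨
    ∃ φ : F →ₐ[ℂ] L, ∀ Q : Place ℂ L, ∃ e : ℕ, 0 < e ∧ ∀ f, Q.ord (φ f) = e * (m Q).ord f

/-- Products: a morphism is a pair of morphisms. -/
instance prodPoints (X Y : Type) [Points X] [Points Y] : Points (X × Y) where
  IsMor := fun m => IsMor (fun Q => (m Q).1) ∧ IsMor (fun Q => (m Q).2)

/-- Powers: a morphism is a family of morphisms. -/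
instance powPoints (ι X : Type) [Points X] : Points (ι → X) where
  IsMor := fun m => ∀ j, IsMor fun Q => m Q j

/-- The zero-cycles rationally equivalent to zero: the group generated by the cycles `m_* div(h)`,
for all smooth projective curves, all rational functions `h ≠ 0` and all morphisms `m`. -/
noncomputable def Rat (X : Type) [Points X] : AddSubgroup (X →₀ ℤ) :=
  AddSubgroup.closure {z | ∃ (L : Type) (_ : Field L) (_ : Algebra ℂ L) (_ : IsFF ℂ L)
    (m : Place ℂ L → X) (h : L), IsMor m ∧ h ≠ 0 ∧ z = (divisor ℂ h).mapDomain m}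

/-- The exterior product `a_1 × ... × a_n`, a zero-cycle on the power `X ^ n`. -/
noncomputable def cross {ι X R : Type} [Fintype ι] [DecidableEq ι] [CommRing R]
    (a : ι → X →₀ R) : (ι → X) →₀ R :=
  Finsupp.onFinset (Fintype.piFinset fun j => (a j).support) (fun p => ∏ j, a j (p j)) (by
    intro p hp
    rw [Fintype.mem_piFinset]
    intro j
    rw [Finsupp.mem_support_iff]
    intro h
    exact hp (Finset.prod_eq_zero (Finset.mem_univ j) h))

/-- For all zero-cycles `a_1, ..., a_n` on `X` with the property `P`, a positive multiple of the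
alternating sum of the cycles `a_σ(1) × ... × a_σ(n)` is rationally equivalent to zero on `X ^ n`. -/
def AltTorsion (X : Type) [Points X] (n : ℕ) (P : (X →₀ ℤ) → Prop) : Prop :=
  ∀ a : Fin n → X →₀ ℤ, (∀ i, P (a i)) → ∃ k : ℕ, 0 < k ∧
    k • ∑ σ : Equiv.Perm (Fin n), (Equiv.Perm.sign σ : ℤ) • cross (fun i => a (σ i)) ∈
      Rat (Fin n → X)

/-- The divisor of a rational function. -/
def Principal {F : Type} [Field F] [Algebra ℂ F] [IsFF ℂ F] (D : Place ℂ F →₀ ℤ) : Prop :=
  ∃ f : F, f ≠ 0 ∧ D = divisor ℂ f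

/-- The group `(ℤ / 2) ^ r`, written as the group of the families of `r` signs. -/
abbrev Signs (r : ℕ) : Type := Fin r → ℤˣ

/-- The characters of the group of families of signs, indexed by the subsets `T`: the product of the
signs in `T`. -/
def chi {r : ℕ} (T : Finset (Fin r)) : Signs r →* ℤˣ where
  toFun g := ∏ i ∈ T, g i
  map_one' := by simp
  map_mul' g h := by simp [Finset.prod_mul_distrib]

section act

variable {F : Type} [Field F] [Algebra ℂ F] {r : ℕ} (ρ : Signs r →* (F ≃ₐ[ℂ] F))

/-- The action on the points of the curve. -/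
noncomputable def act (g : Signs r) (P : Place ℂ F) : Place ℂ F := P.comp (ρ g)

instance finite_map (T : Finset (Fin r)) : Finite ((chi T).ker.map ρ) :=
  Set.Finite.to_subtype (Set.Finite.image ρ (Set.toFinite ((chi T).ker : Set (Signs r))))

variable [IsFF ℂ F]

instance fixed_isFF (H : Subgroup (F ≃ₐ[ℂ] F)) [Finite H] : IsFF ℂ (fixedField H) :=
  Pool.Agent.W619.PQ.fixed_isFF H

/-- The genus of the quotient of the curve by the kernel of the character `T`. -/
noncomputable def quotGenus (T : Finset (Fin r)) : ℕ :=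
  genus (fixedField ((chi T).ker.map ρ))

end act

section quo

variable {F₁ F₂ : Type} [Field F₁] [Algebra ℂ F₁] [Field F₂] [Algebra ℂ F₂]
  {r : ℕ} (ρ₁ : Signs r →* (F₁ ≃ₐ[ℂ] F₁)) (ρ₂ : Signs r →* (F₂ ≃ₐ[ℂ] F₂))

/-- The surface `(C₁ × C₂) / G`: its points are the orbits of `G`. -/
def Quo : Type :=
  Quot fun p q : Place ℂ F₁ × Place ℂ F₂ => ∃ g, q = (act ρ₁ g p.1, act ρ₂ g p.2)

/-- The orbit of a point. -/
def Quo.mk (p : Place ℂ F₁ × Place ℂ F₂) : Quo ρ₁ ρ₂ := Quot.mk _ p

/-- A point of an orbit. -/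
noncomputable def Quo.out {ρ₁ : Signs r →* (F₁ ≃ₐ[ℂ] F₁)} {ρ₂ : Signs r →* (F₂ ≃ₐ[ℂ] F₂)}
    (s : Quo ρ₁ ρ₂) : Place ℂ F₁ × Place ℂ F₂ := Quot.out s

/-- The morphisms to `(C₁ × C₂) / G` which can be lifted to `C₁ × C₂`. -/
instance quoPoints : Points (Quo ρ₁ ρ₂) where
  IsMor := fun {L} _ _ m => ∃ n : Place ℂ L → Place ℂ F₁ × Place ℂ F₂, IsMor n ∧
    ∀ Q, m Q = Quo.mk ρ₁ ρ₂ (n Q)

/-- The pull-back to `C₁` of the image of a cycle in `C₁ / G`. -/
noncomputable def toC₁ (a : Quo ρ₁ ρ₂ →₀ ℤ) : Place ℂ F₁ →₀ ℤ :=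
  a.sum fun s n => ∑ g, Finsupp.single (act ρ₁ g (Quo.out s).1) n

/-- The pull-back to `C₂` of the image of a cycle in `C₂ / G`. -/
noncomputable def toC₂ (a : Quo ρ₁ ρ₂ →₀ ℤ) : Place ℂ F₂ →₀ ℤ :=
  a.sum fun s n => ∑ g, Finsupp.single (act ρ₂ g (Quo.out s).2) n

end quo

end Pool.Agent.H46Z
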