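import Pool.Agent.H46Z.Sym
import Pool.Agent.Helper386.D5V.Helper399_FF4
import Pool.Agent.W619.PQ.Fix
import Pool.Agent.W619.PQ.Approx
import Pool.Agent.W619.PQ.Local

/-!
# Descent to a subfield of finite index

Principal divisors of functions of a subfield of finite index; places over a place of the fixed
field of a finite group of automorphisms.
-/

set_option autoImplicit false
set_option linter.unusedSectionVars false

open FF Module IntermediateField

namespace Pool.Agent.H46Z

section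

variable {E F : Type} [Field E] [Field F] [Algebra ℂ E] [Algebra ℂ F] [Algebra E F]
  [IsScalarTower ℂ E F] [FiniteDimensional E F] [IsFF ℂ E] [IsFF ℂ F]

theorem finrank_RF {w : Place ℂ F} {w0 : Place ℂ E} {e : ℕ} (h : Over w w0 e) :
    @finrank w0.RF w.RF _ _ h.resMap.toRingHom.toAlgebra.toModule = 1 := by
  let := h.resMap.toRingHom.toAlgebra
  have h1 : Function.Bijective (algebraMap ℂ w.RF) :=
    IsAlgClosed.algebraMap_bijective_of_isIntegral
  have : (⊥ : Subalgebra w0.RF w.RF) = ⊤ := by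
    rw [eq_top_iff]
    intro c _
    obtain ⟨d, rfl⟩ := h1.2 c
    have h2 : algebraMap ℂ w.RF d = algebraMap w0.RF w.RF (algebraMap ℂ w0.RF d) := by
      change _ = h.resMap (algebraMap ℂ w0.RF d)
      rw [AlgHom.commutes]
    rw [h2]
    exact Subalgebra.algebraMap_mem _ _
  exact Subalgebra.bot_eq_top_iff_finrank_eq_one.1 this

/-- The fundamental equality. -/
theorem places_over (w0 : Place ℂ E) : ∃ (S : Finset (Place ℂ F)) (T : Place ℂ F → ℕ),
    (∀ w e, Over w w0 e → w ∈ S) ∧ (∀ w ∈ S, Over w w0 (T w)) ∧ ∑ w ∈ S, T w = finrank E F := by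
  obtain ⟨S, T, h1, h2, h3⟩ := exists_places_over (K' := F) w0
  refine ⟨S, T, h1, fun w hw => ?_, h3⟩
  obtain ⟨e, h, hT, -⟩ := h2 w hw
  rw [finrank_RF h, mul_one] at hT
  rwa [hT]

theorem exists_above (w0 : Place ℂ E) : ∃ (w : Place ℂ F) (e : ℕ), Over w w0 e := by
  obtain ⟨S, T, h1, h2, h3⟩ := places_over (F := F) w0
  have hpos : 0 < finrank E F := Module.finrank_pos
  obtain ⟨w, hw⟩ : S.Nonempty := by
    rw [Finset.nonempty_iff_ne_empty]
    rintro rfl
    rw [Finset.sum_empty] at h3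
    omega
  exact ⟨w, T w, h2 w hw⟩

theorem exists_below (w : Place ℂ F) : ∃ (w0 : Place ℂ E) (e : ℕ), Over w w0 e := by
  have h1 : ∃ f : E, w.ord (algebraMap E F f) ≠ 0 := by
    by_contra hc
    push Not at hc
    obtain ⟨t, ht0, ht⟩ := w.surj
    have h2 := Pool.Agent.W619.PQ.ord_eq_zero_of_alg (k := ℂ) (K0 := E) (K1 := F) (K2 := F) w hc t
    rw [Algebra.algebraMap_self_apply, ht] at h2
    exact one_ne_zero h2
  obtain ⟨e, w0, h⟩ := exists_over w h1
  exact ⟨w0, e, h⟩

theorem over_unique {w : Place ℂ F} {p p' : Place ℂ E} {e e' : ℕ} (h : Over w p e)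
    (h' : Over w p' e') : p = p' ∧ e = e' :=
  Pool.Agent.W619.PQ.over_unique' h h'

/-- The sum over the divisor of a function of the subfield. -/
theorem sum_divisor_down {M : Type} [AddCommGroup M] [Module ℚ M] (h : E)
    (c : Place ℂ F → M) (c' : Place ℂ E → M) (hc : ∀ w w0 e, Over w w0 e → c w = c' w0) :
    (divisor ℂ (algebraMap E F h)).sum (fun P n => (n : ℚ) • c P) =
      (finrank E F : ℚ) • (divisor ℂ h).sum fun P n => (n : ℚ) • c' P := by
  classical
  choose S T h1 h2 h3 using fun w0 : Place ℂ E => places_over (F := F) w0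
  have hsupp : (divisor ℂ (algebraMap E F h)).support = (divisor ℂ h).support.biUnion S := by
    ext w
    rw [Finsupp.mem_support_iff, divisor_apply, Finset.mem_biUnion]
    constructor
    · intro hw
      obtain ⟨w0, e, hov⟩ := exists_below (E := E) w
      refine ⟨w0, ?_, h1 _ _ _ hov⟩
      rw [Finsupp.mem_support_iff, divisor_apply]
      intro h0
      rw [hov.2, h0, mul_zero] at hw
      exact hw rfl
    · rintro ⟨w0, hw0, hw⟩
      rw [Finsupp.mem_support_iff, divisor_apply] at hw0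
      have hov := h2 _ _ hw
      rw [hov.2]
      have := hov.1
      exact mul_ne_zero (by exact_mod_cast this.ne') hw0
  rw [Finsupp.sum, hsupp, Finset.sum_biUnion, Finsupp.sum, Finset.smul_sum]
  · refine Finset.sum_congr rfl fun w0 _ => ?_
    have h4 : ∀ w ∈ S w0, (((divisor ℂ (algebraMap E F h)) w : ℤ) : ℚ) • c w =
        (T w0 w : ℚ) • ((((divisor ℂ h) w0 : ℤ) : ℚ) • c' w0) := by
      intro w hw
      have hov := h2 _ _ hw
      rw [divisor_apply, divisor_apply, hov.2, hc _ _ _ hov, smul_smul]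
      push_cast
      rfl
    rw [Finset.sum_congr rfl h4, ← Finset.sum_smul, ← h3 w0]
    push_cast
    rfl
  · intro a _ b _ hab
    rw [Function.onFun, Finset.disjoint_left]
    intro w hwa hwb
    exact hab (over_unique (h2 _ _ hwa) (h2 _ _ hwb)).1

/-- Descent of the relations. -/
theorem PRel.down {ι U M : Type} [Fintype ι] [DecidableEq ι] [AddCommGroup U] [Module ℚ U]
    [AddCommGroup M] [Module ℚ M] {Ψ : MultilinearMap ℚ (fun _ : ι => U) M} {W : Place ℂ F → U}
    (hR : PRel Ψ W) {W' : Place ℂ E → U} (hW : ∀ w w0 e, Over w w0 e → W w = W' w0) :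
    PRel Ψ W' := by
  intro B hB v h hh
  have hh' : algebraMap E F h ≠ 0 := by simpa using hh
  have h1 := hR B hB v _ hh'
  rw [sum_divisor_down h (fun P => Ψ (B.piecewise (fun _ => W P) v))
    (fun P => Ψ (B.piecewise (fun _ => W' P) v))
    (fun w w0 e hov => by simp only [hW w w0 e hov])] at h1
  have h2 : (finrank E F : ℚ) ≠ 0 := Nat.cast_ne_zero.2 Module.finrank_pos.ne'
  exact (smul_eq_zero.1 h1).resolve_left h2

end

section group

variable {F : Type} [Field F] [Algebra ℂ F] [IsFF ℂ F]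

theorem ord_prod {ι : Type*} (w : Place ℂ F) (s : Finset ι)
    (a : ι → F) (ha : ∀ i ∈ s, a i ≠ 0) : w.ord (∏ i ∈ s, a i) = ∑ i ∈ s, w.ord (a i) := by
  classical
  induction s using Finset.induction_on with
  | empty => simp [w.ord_one]
  | insert i s hi ih =>
    rw [Finset.prod_insert hi, Finset.sum_insert hi,
      w.ord_mul (ha i (Finset.mem_insert_self _ _))
        (Finset.prod_ne_zero_iff.2 fun j hj => ha j (Finset.mem_insert_of_mem hj)),
      ih fun j hj => ha j (Finset.mem_insert_of_mem hj)]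

/-- The group acts transitively on the places over a place of the fixed field. -/
theorem over_conj (G : Subgroup (F ≃ₐ[ℂ] F)) [Finite G] {v : Place ℂ (fixedField G)}
    {w w' : Place ℂ F} {e e' : ℕ} (hw : Over w v e) (hw' : Over w' v e') :
    ∃ g ∈ G, w' = w.comp g := by
  classical
  have : Fintype G := Fintype.ofFinite G
  by_contra hcon
  push Not at hcon
  have hw2 : ∀ g : G, w'.comp (g : F ≃ₐ[ℂ] F) ≠ w := by
    intro g hg
    apply hcon _ (g⁻¹).2
    rw [← hg]
    apply Place.ext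
    funext z
    rw [Place.comp_ord, Place.comp_ord]
    congr 1
    have h2 : (g : F ≃ₐ[ℂ] F) (((g⁻¹ : G) : F ≃ₐ[ℂ] F) z) = ((g * g⁻¹ : G) : F ≃ₐ[ℂ] F) z := rfl
    rw [h2, mul_inv_cancel]
    rfl
  set S : Finset (Place ℂ F) := ((Finset.univ.image fun g : G => w.comp (g : F ≃ₐ[ℂ] F)) ∪
    (Finset.univ.image fun g : G => w'.comp (g : F ≃ₐ[ℂ] F))).erase w with hS
  obtain ⟨z, hz0, hzw, hzS⟩ := Pool.Agent.W619.PQ.sep_many S w (Finset.notMem_erase _ _)
  have h1 := Pool.Agent.W619.PQ.ord_one_add_of_neg hz0 hzw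
  set y : F := (1 + z)⁻¹ with hy
  have hy0 : y ≠ 0 := inv_ne_zero h1.1
  have hyw : 0 < w.ord y := by rw [hy, w.ord_inv, h1.2]; omega
  have hyS : ∀ Q ∈ S, Q.ord y = 0 := by
    intro Q hQ
    rw [hy, Q.ord_inv, (Pool.Agent.W619.PQ.ord_one_add_of_pos hz0 (hzS Q hQ)).2, neg_zero]
  have hgy : ∀ g ∈ (Finset.univ : Finset G), (g : F ≃ₐ[ℂ] F) y ≠ 0 := fun g _ => by
    simpa using hy0
  set N : F := ∏ g : G, (g : F ≃ₐ[ℂ] F) y with hN
  have hNf : N ∈ fixedField G := by
    rw [IntermediateField.mem_fixedField_iff]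
    intro f hf
    rw [hN, map_prod]
    exact Fintype.prod_equiv (Equiv.mulLeft (⟨f, hf⟩ : G)) _ _ fun g => rfl
  have e1 := hw.2 ⟨N, hNf⟩
  have e2 := hw'.2 ⟨N, hNf⟩
  have a1 : algebraMap (fixedField G) F ⟨N, hNf⟩ = N := rfl
  rw [a1] at e1 e2
  have s2 : w'.ord N = 0 := by
    rw [hN, ord_prod w' _ _ hgy]
    refine Finset.sum_eq_zero fun g _ => ?_
    exact hyS (w'.comp (g : F ≃ₐ[ℂ] F)) (by
      rw [hS, Finset.mem_erase]
      exact ⟨hw2 g, Finset.mem_union_right _ (Finset.mem_image_of_mem _ (Finset.mem_univ g))⟩)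
  have s1 : 0 < w.ord N := by
    rw [hN, ord_prod w _ _ hgy]
    refine Finset.sum_pos' (fun g _ => ?_) ⟨1, Finset.mem_univ _, ?_⟩
    · by_cases hg : w.comp (g : F ≃ₐ[ℂ] F) = w
      · have h2 : w.ord ((g : F ≃ₐ[ℂ] F) y) = w.ord y := by
          conv_rhs => rw [← hg]
          rfl
        rw [h2]
        exact hyw.le
      · have h2 := hyS (w.comp (g : F ≃ₐ[ℂ] F)) (by
          rw [hS, Finset.mem_erase]
          exact ⟨hg, Finset.mem_union_left _ (Finset.mem_image_of_mem _ (Finset.mem_univ g))⟩)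
        exact h2.ge
    · exact hyw
  rw [s2] at e2
  have h3 : v.ord ⟨N, hNf⟩ = 0 := by
    rcases mul_eq_zero.1 e2.symm with h | h
    · have := hw'.1
      omega
    · exact h
  rw [h3, mul_zero] at e1
  omega

end group

end Pool.Agent.H46Z
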