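import Pool.Agent.H46Z.Alt

/-!
# Quotients of products of two curves by groups of commuting involutions
-/

set_option autoImplicit false
set_option linter.unusedSectionVars false

open FF Module IntermediateField

namespace Pool.Agent.H46Z

section lift

variable {F₁ F₂ : Type} [Field F₁] [Algebra ℂ F₁] [Field F₂] [Algebra ℂ F₂]
  {r : ℕ} (ρ₁ : Signs r →* (F₁ ≃ₐ[ℂ] F₁)) (ρ₂ : Signs r →* (F₂ ≃ₐ[ℂ] F₂))

/-- The sum of the points of the orbit of a point. -/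
noncomputable def orb (p : Place ℂ F₁ × Place ℂ F₂) : Place ℂ F₁ × Place ℂ F₂ →₀ ℚ :=
  ∑ g, Finsupp.single (act ρ₁ g p.1, act ρ₂ g p.2) 1

/-- The pull-back of cycles to `C₁ × C₂`. -/
noncomputable def lft : (Quo ρ₁ ρ₂ →₀ ℚ) →ₗ[ℚ] (Place ℂ F₁ × Place ℂ F₂ →₀ ℚ) :=
  Finsupp.linearCombination ℚ fun s => orb ρ₁ ρ₂ (Quo.out s)

/-- The push-forward of cycles. -/
noncomputable def psh : (Place ℂ F₁ × Place ℂ F₂ →₀ ℚ) →ₗ[ℚ] (Quo ρ₁ ρ₂ →₀ ℚ) :=
  Finsupp.lmapDomain ℚ ℚ (Quo.mk ρ₁ ρ₂)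

theorem mk_act (p : Place ℂ F₁ × Place ℂ F₂) (g : Signs r) :
    (Quo.mk ρ₁ ρ₂ (act ρ₁ g p.1, act ρ₂ g p.2)) = Quo.mk ρ₁ ρ₂ p :=
  (Quot.sound ⟨g, rfl⟩).symm

theorem psh_orb (p : Place ℂ F₁ × Place ℂ F₂) :
    psh ρ₁ ρ₂ (orb ρ₁ ρ₂ p) = Finsupp.single (Quo.mk ρ₁ ρ₂ p) (2 ^ r : ℚ) := by
  unfold psh orb
  rw [map_sum]
  have h : ∀ g : Signs r, (Finsupp.lmapDomain ℚ ℚ (Quo.mk ρ₁ ρ₂) :
      (Place ℂ F₁ × Place ℂ F₂ →₀ ℚ) →ₗ[ℚ] (Quo ρ₁ ρ₂ →₀ ℚ))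
      (Finsupp.single (act ρ₁ g p.1, act ρ₂ g p.2) 1) = Finsupp.single (Quo.mk ρ₁ ρ₂ p) 1 := by
    intro g
    rw [Finsupp.lmapDomain_apply, Finsupp.mapDomain_single, mk_act]
  rw [Finset.sum_congr rfl fun g _ => h g, Finset.sum_const, Finset.card_univ, Finsupp.smul_single]
  congr 1
  rw [Fintype.card_pi, Finset.prod_const, Fintype.card_units_int, Finset.card_univ,
    Fintype.card_fin, nsmul_eq_mul, mul_one]
  push_cast
  rfl

theorem psh_lft (z : Quo ρ₁ ρ₂ →₀ ℚ) : psh ρ₁ ρ₂ (lft ρ₁ ρ₂ z) = (2 ^ r : ℚ) • z := by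
  have h : (psh ρ₁ ρ₂) ∘ₗ (lft ρ₁ ρ₂) = (2 ^ r : ℚ) • LinearMap.id := by
    refine Finsupp.lhom_ext' fun s => LinearMap.ext_ring ?_
    simp only [LinearMap.comp_apply, Finsupp.lsingle_apply, lft, Finsupp.linearCombination_single,
      one_smul, psh_orb, LinearMap.smul_apply, LinearMap.id_apply]
    rw [Finsupp.smul_single, smul_eq_mul, mul_one]
    congr 1
    exact Quot.out_eq s
  exact LinearMap.congr_fun h z

variable {ι : Type} [Fintype ι] [DecidableEq ι]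

/-- The push-forward of cycles on the powers. -/
noncomputable def pshP (ι : Type) :
    ((ι → Place ℂ F₁ × Place ℂ F₂) →₀ ℚ) →ₗ[ℚ] ((ι → Quo ρ₁ ρ₂) →₀ ℚ) :=
  Finsupp.lmapDomain ℚ ℚ fun p i => Quo.mk ρ₁ ρ₂ (p i)

theorem pshP_cross (a : ι → Place ℂ F₁ × Place ℂ F₂ →₀ ℚ) :
    pshP ρ₁ ρ₂ ι (cross a) = cross fun i => psh ρ₁ ρ₂ (a i) := by
  have h : (pshP ρ₁ ρ₂ ι).compMultilinearMap (crossM ι (Place ℂ F₁ × Place ℂ F₂)) =
      (crossM ι (Quo ρ₁ ρ₂)).compLinearMap fun _ => psh ρ₁ ρ₂ := by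
    refine Module.Basis.ext_multilinear (fun _ => Finsupp.basisSingleOne) fun v => ?_
    simp only [LinearMap.compMultilinearMap_apply, Finsupp.coe_basisSingleOne, crossM_apply,
      MultilinearMap.compLinearMap_apply]
    rw [cross_single, pshP, psh, Finsupp.lmapDomain_apply, Finsupp.mapDomain_single]
    simp only [Finsupp.lmapDomain_apply, Finsupp.mapDomain_single]
    rw [cross_single]
  have h2 := MultilinearMap.congr_fun h a
  simpa only [LinearMap.compMultilinearMap_apply, crossM_apply,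
    MultilinearMap.compLinearMap_apply] using h2

theorem pshP_mem {z : (ι → Place ℂ F₁ × Place ℂ F₂) →₀ ℚ}
    (hz : z ∈ RatQ (ι → Place ℂ F₁ × Place ℂ F₂)) :
    pshP ρ₁ ρ₂ ι z ∈ RatQ (ι → Quo ρ₁ ρ₂) := by
  have h1 : RatQ (ι → Place ℂ F₁ × Place ℂ F₂) ≤
      (RatQ (ι → Quo ρ₁ ρ₂)).comap (pshP ρ₁ ρ₂ ι) := by
    conv_lhs => unfold RatQ
    rw [Submodule.span_le]
    rintro _ ⟨L, i1, i2, i3, m, h, hm, hh, rfl⟩
    rw [SetLike.mem_coe, Submodule.mem_comap, map_dv]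
    refine dv_mem hh ?_
    have h2 : (fun P => pshP ρ₁ ρ₂ ι (Finsupp.single (m P) (1 : ℚ))) =
        fun P => Finsupp.single (fun i => Quo.mk ρ₁ ρ₂ (m P i)) 1 := by
      funext P
      rw [pshP, Finsupp.lmapDomain_apply, Finsupp.mapDomain_single]
    rw [h2]
    exact fam_mor fun j => ⟨fun P => m P j, hm j, fun Q => rfl⟩
  exact h1 hz

theorem sum_chi (g : Signs r) : ∑ T : Finset (Fin r), (((chi T g : ℤˣ) : ℤ) : ℚ) =
    if g = 1 then 2 ^ r else 0 := by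
  have h1 : ∀ T : Finset (Fin r), (((chi T g : ℤˣ) : ℤ) : ℚ) = ∏ i ∈ T, (((g i : ℤˣ) : ℤ) : ℚ) := by
    intro T
    rw [chi_apply, Units.coe_prod, Int.cast_prod]
  rw [Finset.sum_congr rfl fun T _ => h1 T]
  have h2 := Finset.prod_add_one (f := fun i : Fin r => (((g i : ℤˣ) : ℤ) : ℚ)) Finset.univ
  rw [Finset.powerset_univ] at h2
  rw [← h2]
  split_ifs with h
  · subst h
    simp
    norm_num
  · obtain ⟨i, hi⟩ := Function.ne_iff.1 h
    refine Finset.prod_eq_zero (Finset.mem_univ i) ?_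
    rcases Int.units_eq_one_or (g i) with h3 | h3
    · exact absurd h3 hi
    · rw [h3]
      simp

/-- The sum of the points of an orbit as the sum of the parts belonging to the characters. -/
theorem orb_eq (p : Place ℂ F₁ × Place ℂ F₂) : (2 ^ r : ℚ) • orb ρ₁ ρ₂ p =
    ∑ T : Finset (Fin r), box (wt ρ₁ T p.1) (wt ρ₂ T p.2) := by
  have h1 : ∀ T : Finset (Fin r), box (wt ρ₁ T p.1) (wt ρ₂ T p.2) =
      ∑ g, ∑ h, (((chi T (g * h) : ℤˣ) : ℤ) : ℚ) •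
        Finsupp.single (act ρ₁ g p.1, act ρ₂ h p.2) (1 : ℚ) := by
    intro T
    change boxL (wt ρ₂ T p.2) (∑ g, Finsupp.single (act ρ₁ g p.1) (((chi T g : ℤˣ) : ℤ) : ℚ)) = _
    rw [map_sum]
    refine Finset.sum_congr rfl fun g _ => ?_
    change boxR (Finsupp.single (act ρ₁ g p.1) (((chi T g : ℤˣ) : ℤ) : ℚ))
      (∑ h, Finsupp.single (act ρ₂ h p.2) (((chi T h : ℤˣ) : ℤ) : ℚ)) = _
    rw [map_sum]
    refine Finset.sum_congr rfl fun h _ => ?_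
    rw [boxR_apply, box_single, map_mul, Finsupp.smul_single, smul_eq_mul, mul_one]
    push_cast
    rfl
  rw [Finset.sum_congr rfl fun T _ => h1 T, Finset.sum_comm, orb, Finset.smul_sum]
  refine Finset.sum_congr rfl fun g _ => ?_
  rw [Finset.sum_comm]
  rw [Finset.sum_eq_single g]
  · rw [← Finset.sum_smul, sum_chi, if_pos (signs_sq g)]
  · intro h _ hgh
    rw [← Finset.sum_smul, sum_chi, if_neg, zero_smul]
    intro h2
    apply hgh
    have h3 := signs_sq g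
    rw [← h2] at h3
    exact (mul_left_cancel h3).symm
  · intro h
    exact absurd (Finset.mem_univ _) h

end lift

end Pool.Agent.H46Z
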