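import Pool.Agent.H46Z.Cyc

/-!
# Symmetrizations of multilinear maps over more than `g` positions
-/

set_option autoImplicit false

open FF Module

namespace Pool.Agent.H46Z

section

variable {F : Type} [Field F] [Algebra ℂ F] [IsFF ℂ F]

theorem sum_divisor (h : F) : (divisor ℂ h).sum (fun _ n => (n : ℚ)) = 0 := by
  have h1 := ddeg_divisor (k := ℂ) h
  unfold ddeg at h1
  simp only [deg_one, Nat.cast_one, mul_one] at h1
  rw [Finsupp.sum] at h1 ⊢
  exact_mod_cast h1

variable {ι U M : Type} [Fintype ι] [DecidableEq ι] [AddCommGroup U] [Module ℚ U]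
  [AddCommGroup M] [Module ℚ M]

/-- The multilinear map `Ψ` is killed by principal divisors (inserted by means of `W`) in any
nonempty set of positions. -/
def PRel (Ψ : MultilinearMap ℚ (fun _ : ι => U) M) (W : Place ℂ F → U) : Prop :=
  ∀ B : Finset ι, B.Nonempty → ∀ (v : ι → U) (h : F), h ≠ 0 →
    (divisor ℂ h).sum (fun P n => (n : ℚ) • Ψ (B.piecewise (fun _ => W P) v)) = 0

theorem PRel.diff {Ψ : MultilinearMap ℚ (fun _ : ι => U) M} {W : Place ℂ F → U} (hR : PRel Ψ W)
    (o : Place ℂ F) (h : F) (hh : h ≠ 0) (C : Finset ι) : ∀ (B : Finset ι), Disjoint B C →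
      (B ∪ C).Nonempty → ∀ v : ι → U,
    (divisor ℂ h).sum (fun P n => (n : ℚ) • Ψ (B.piecewise (fun _ => W P)
      (C.piecewise (fun _ => W P - W o) v))) = 0 := by
  induction C using Finset.induction_on with
  | empty =>
    intro B _ hB v
    simp only [Finset.piecewise_empty]
    rw [Finset.union_empty] at hB
    exact hR B hB v h hh
  | insert c C hc ih =>
    intro B hBC hne v
    rw [Finset.disjoint_insert_right] at hBC
    have h1 : ∀ P : Place ℂ F, Ψ (B.piecewise (fun _ => W P)
        ((insert c C).piecewise (fun _ => W P - W o) v)) =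
        Ψ ((insert c B).piecewise (fun _ => W P) (C.piecewise (fun _ => W P - W o) v)) -
        Ψ (B.piecewise (fun _ => W P) (C.piecewise (fun _ => W P - W o)
          (Function.update v c (W o)))) := by
      intro P
      have e1 : B.piecewise (fun _ => W P) ((insert c C).piecewise (fun _ => W P - W o) v) =
          Function.update (B.piecewise (fun _ => W P) (C.piecewise (fun _ => W P - W o) v)) c
            (W P - W o) := by
        funext j
        by_cases hj : j = c
        · subst hj
          simp [Finset.piecewise, hBC.1]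
        · simp [Finset.piecewise, hj]
      have e2 : (insert c B).piecewise (fun _ => W P) (C.piecewise (fun _ => W P - W o) v) =
          Function.update (B.piecewise (fun _ => W P) (C.piecewise (fun _ => W P - W o) v)) c
            (W P) := by
        funext j
        by_cases hj : j = c
        · subst hj
          simp [Finset.piecewise]
        · simp [Finset.piecewise, hj]
      have e3 : B.piecewise (fun _ => W P) (C.piecewise (fun _ => W P - W o)
          (Function.update v c (W o))) =
          Function.update (B.piecewise (fun _ => W P) (C.piecewise (fun _ => W P - W o) v)) c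
            (W o) := by
        funext j
        by_cases hj : j = c
        · subst hj
          simp [Finset.piecewise, hBC.1, hc]
        · simp [Finset.piecewise, hj]
      rw [e1, e2, e3, MultilinearMap.map_update_sub]
    simp only [h1, smul_sub]
    rw [Finsupp.sum_sub, ih (insert c B) (Finset.disjoint_insert_left.2 ⟨hc, hBC.2⟩)
      ⟨c, by simp⟩ v, zero_sub, neg_eq_zero]
    by_cases hBC' : (B ∪ C).Nonempty
    · exact ih B hBC.2 hBC' _
    · rw [Finset.not_nonempty_iff_eq_empty, Finset.union_eq_empty] at hBC'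
      obtain ⟨rfl, rfl⟩ := hBC'
      simp only [Finset.piecewise_empty]
      rw [Finsupp.sum, ← Finset.sum_smul]
      have h2 := sum_divisor h
      rw [Finsupp.sum] at h2
      rw [h2, zero_smul]

/-- **Symmetrizations over more than `g` positions are zero.** -/
theorem sym_zero {Ψ : MultilinearMap ℚ (fun _ : ι => U) M} {W : Place ℂ F → U} (hR : PRel Ψ W)
    (A : Finset ι) (hA : genus F < A.card) (o : Place ℂ F) (x : ι → Place ℂ F) (v : ι → U) :
    ∑ ρ : Equiv.Perm A, Ψ (A.piecewise (fun j => W (x (Equiv.Perm.ofSubtype ρ j)) - W o) v) = 0 := by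
  classical
  let Θ : (A → Place ℂ F) → M := fun u => Ψ fun j => if hj : j ∈ A then W (u ⟨j, hj⟩) - W o else v j
  have hΘ : Rel Θ := by
    intro B' hB' h hh y hy1 hy2
    let C : Finset ι := Finset.univ.filter fun j => ∃ hj : j ∈ A, (⟨j, hj⟩ : A) ∈ B'
    have hC : C.Nonempty := by
      obtain ⟨b, hb⟩ := hB'
      exact ⟨b, Finset.mem_filter.2 ⟨Finset.mem_univ _, b.2, hb⟩⟩
    have h1 := hR.diff o h hh C ∅ (Finset.disjoint_empty_left _) (by rwa [Finset.empty_union])
      (fun j => if hj : j ∈ A then W (y o ⟨j, hj⟩) - W o else v j)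
    rw [← h1]
    refine Finsupp.sum_congr fun P _ => ?_
    rw [← Int.cast_smul_eq_zsmul ℚ]
    congr 1
    change Ψ _ = Ψ _
    congr 1
    funext j
    rw [Finset.piecewise_empty]
    by_cases hj : j ∈ C
    · rw [Finset.piecewise_eq_of_mem _ _ _ hj]
      obtain ⟨-, hjA, hjB⟩ := Finset.mem_filter.1 hj
      rw [dif_pos hjA, hy1 P _ hjB]
    · rw [Finset.piecewise_eq_of_notMem _ _ _ hj]
      by_cases hjA : j ∈ A
      · rw [dif_pos hjA, dif_pos hjA]
        rw [hy2 P o ⟨j, hjA⟩ fun hjB => hj (Finset.mem_filter.2 ⟨Finset.mem_univ _, hjA, hjB⟩)]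
      · rw [dif_neg hjA, dif_neg hjA]
  have ho : ∀ (u : A → Place ℂ F) i, u i = o → Θ u = 0 := by
    intro u i hi
    refine Ψ.map_coord_zero (i : ι) ?_
    rw [dif_pos i.2, Subtype.coe_eta, hi, sub_self]
  have h1 := core' (F := F) (ι := A) (by rwa [Fintype.card_coe]) Θ hΘ o ho fun i => x i
  rw [← h1]
  refine Finset.sum_congr rfl fun ρ _ => ?_
  change Ψ _ = Ψ _
  congr 1
  funext j
  by_cases hj : j ∈ A
  · rw [Finset.piecewise_eq_of_mem _ _ _ hj, dif_pos hj, Function.comp_apply,
      Equiv.Perm.ofSubtype_apply_of_mem _ hj]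
  · rw [Finset.piecewise_eq_of_notMem _ _ _ hj, dif_neg hj]

end

section kills

variable {F : Type} [Field F] [Algebra ℂ F] [IsFF ℂ F] {U : Type} [AddCommGroup U] [Module ℚ U]

/-- The symmetrizations over more than `g` positions of the multilinear maps killed by principal
divisors vanish. -/
def Kills (W : Place ℂ F → U) (g : ℕ) : Prop :=
  ∀ (ι M : Type) [Fintype ι] [DecidableEq ι] [AddCommGroup M] [Module ℚ M]
    (Ψ : MultilinearMap ℚ (fun _ : ι => U) M), PRel Ψ W → ∀ A : Finset ι, g < A.card →
    ∀ (o : Place ℂ F) (x : ι → Place ℂ F) (v : ι → U),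
      ∑ ρ : Equiv.Perm A, Ψ (A.piecewise (fun j => W (x (Equiv.Perm.ofSubtype ρ j)) - W o) v) = 0

theorem kills_genus (W : Place ℂ F → U) : Kills W (genus F) :=
  fun _ _ _ _ _ _ _ hR A hA o x v => sym_zero hR A hA o x v

end kills

end Pool.Agent.H46Z
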