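import Pool.Agent.H46Z.Alt

/-!
# Alternating sums of symmetric products
-/

set_option autoImplicit false
set_option linter.unusedSectionVars false

open Equiv

namespace Pool.Agent.H46Z

section comb

variable {M : Type*} [AddCommGroup M] [Module ℚ M] {m g : ℕ}

/-- The permutation `(j, b) ↦ (σ j, ε_j b)`. -/
def pe (σ : Perm (Fin m)) (ε : Fin m → Perm Bool) : Perm (Fin m × Bool) :=
  prodCongrLeft (fun _ => σ) * prodCongrRight ε

theorem pe_apply (σ : Perm (Fin m)) (ε : Fin m → Perm Bool) (k : Fin m × Bool) :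
    pe σ ε k = (σ k.1, ε k.1 k.2) := rfl

theorem sign_pe (σ : Perm (Fin m)) (ε : Fin m → Perm Bool) :
    Perm.sign (pe σ ε) = ∏ j, Perm.sign (ε j) := by
  unfold pe
  rw [Perm.sign_mul, Perm.sign_prodCongrLeft, Perm.sign_prodCongrRight, Finset.prod_const,
    Finset.card_univ, Fintype.card_bool, pow_two, Int.units_mul_self, one_mul]

/-- The minors of size two. -/
def minor (u v : Bool → ℚ) : ℚ := ∑ e : Perm Bool, ((Perm.sign e : ℤ) : ℚ) * (u (e true) * v (e false))

theorem minor_eq (u v : Bool → ℚ) : minor u v = u true * v false - u false * v true := by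
  unfold minor
  have h : (Finset.univ : Finset (Perm Bool)) = {1, swap true false} := by decide
  rw [h, Finset.sum_pair (by decide)]
  have h2 : Perm.sign (swap true false) = -1 := Perm.sign_swap (by decide)
  rw [h2]
  simp [sub_eq_add_neg]

theorem alt_sym (hm : g.choose 2 < m) (z : Perm (Fin m × Bool) → M)
    (hz : ∀ A : Finset (Fin m × Bool), A.card = g + 1 → ∀ σ : Perm (Fin m × Bool),
      ∑ ρ : Perm A, z (σ * Perm.ofSubtype ρ) = 0) :
    ∑ σ : Perm (Fin m), ((Perm.sign σ : ℤ) : ℚ) • ∑ ε : Fin m → Perm Bool, z (pe σ ε) = 0 := by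
  classical
  let sg : (Fin m → Perm Bool) → ℚ := fun ε => ∏ j, ((Perm.sign (ε j) : ℤ) : ℚ)
  let F : Perm (Fin m × Bool) → ℚ := fun π =>
    ∑ p : Perm (Fin m) × (Fin m → Perm Bool), if pe p.1 p.2 = π then
      ((Perm.sign p.1 : ℤ) : ℚ) * sg p.2 else 0
  have key := Pool.Agent.R904.Voi.alt_sum (κ := Fin m × Bool) (Q := Unit) (Γ := Fin g) (M := M)
    (fun _ => ()) (fun _ => ()) F (fun _ _ _ => rfl) ?_ z ?_
  · have e1 : ∑ π : Perm (Fin m × Bool), (((Perm.sign π : ℤ) : ℚ) * F π) • z π =
        ∑ σ : Perm (Fin m), ((Perm.sign σ : ℤ) : ℚ) • ∑ ε : Fin m → Perm Bool, z (pe σ ε) := by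
      have e2 : ∀ π : Perm (Fin m × Bool), (((Perm.sign π : ℤ) : ℚ) * F π) • z π =
          ∑ p : Perm (Fin m) × (Fin m → Perm Bool), if pe p.1 p.2 = π then
            ((Perm.sign p.1 : ℤ) : ℚ) • z (pe p.1 p.2) else 0 := by
        intro π
        simp only [F]
        rw [Finset.mul_sum, Finset.sum_smul]
        refine Finset.sum_congr rfl fun p _ => ?_
        split_ifs with h
        · subst h
          congr 1
          have e3 : ((Perm.sign (pe p.1 p.2) : ℤ) : ℚ) = sg p.2 := by
            rw [sign_pe, Units.coe_prod, Int.cast_prod]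
          have e4 : sg p.2 * sg p.2 = 1 := by
            simp only [sg]
            rw [← Finset.prod_mul_distrib]
            refine Finset.prod_eq_one fun j _ => ?_
            rw [← Int.cast_mul, Int.units_coe_mul_self, Int.cast_one]
          rw [e3]
          linear_combination ((Perm.sign p.1 : ℤ) : ℚ) * e4
        · rw [mul_zero, zero_smul]
      rw [Finset.sum_congr rfl fun π _ => e2 π, Finset.sum_comm, Fintype.sum_prod_type]
      refine Finset.sum_congr rfl fun σ _ => ?_
      rw [Finset.smul_sum]
      refine Finset.sum_congr rfl fun ε _ => ?_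
      rw [Finset.sum_ite_eq]
      simp
    rw [← e1]
    exact key
  · intro c _ Y
    have e1 : ∑ π : Perm (Fin m × Bool), F π * ∏ k, Y (c k) (π k) =
        (Matrix.of fun i j : Fin m => minor (fun b => Y (c (j, true)) (i, b))
          (fun b => Y (c (j, false)) (i, b))).det := by
      rw [Matrix.det_apply]
      have e2 : ∀ π : Perm (Fin m × Bool), F π * ∏ k, Y (c k) (π k) =
          ∑ p : Perm (Fin m) × (Fin m → Perm Bool), if pe p.1 p.2 = π then
            ((Perm.sign p.1 : ℤ) : ℚ) * (sg p.2 * ∏ k, Y (c k) (pe p.1 p.2 k)) else 0 := by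
        intro π
        simp only [F]
        rw [Finset.sum_mul]
        refine Finset.sum_congr rfl fun p _ => ?_
        split_ifs with h
        · subst h
          rw [mul_assoc]
        · rw [zero_mul]
      rw [Finset.sum_congr rfl fun π _ => e2 π, Finset.sum_comm, Fintype.sum_prod_type]
      refine Finset.sum_congr rfl fun σ _ => ?_
      rw [Units.smul_def, zsmul_eq_mul]
      have e3 : ∀ ε : Fin m → Perm Bool, (∑ π : Perm (Fin m × Bool), if pe σ ε = π then
          ((Perm.sign σ : ℤ) : ℚ) * (sg ε * ∏ k, Y (c k) (pe σ ε k)) else 0) =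
          ((Perm.sign σ : ℤ) : ℚ) * ∏ j, (((Perm.sign (ε j) : ℤ) : ℚ) *
            (Y (c (j, true)) (σ j, ε j true) * Y (c (j, false)) (σ j, ε j false))) := by
        intro ε
        rw [Finset.sum_ite_eq, if_pos (Finset.mem_univ _), Finset.prod_mul_distrib,
          Fintype.prod_prod_type]
        congr 2
        refine Finset.prod_congr rfl fun j _ => ?_
        rw [Fintype.prod_bool]
        rfl
      rw [Finset.sum_congr rfl fun ε _ => e3 ε, ← Finset.mul_sum]
      congr 1
      simp only [Matrix.of_apply, minor]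
      rw [Finset.prod_univ_sum, Fintype.piFinset_univ]
    rw [e1]
    by_cases hd : ∃ j, c (j, true) = c (j, false)
    · obtain ⟨j, hj⟩ := hd
      refine Matrix.det_eq_zero_of_column_eq_zero j fun i => ?_
      simp only [Matrix.of_apply]
      rw [minor_eq, hj]
      ring
    · push Not at hd
      let f : Fin m → {s : Sym2 (Fin g) // ¬ s.IsDiag} := fun j =>
        ⟨s(c (j, true), c (j, false)), by simpa using hd j⟩
      have hcard : Fintype.card {s : Sym2 (Fin g) // ¬ s.IsDiag} < Fintype.card (Fin m) := by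
        rw [Sym2.card_subtype_not_diag, Fintype.card_fin, Fintype.card_fin]
        exact hm
      obtain ⟨j, j', hne, heq⟩ := Fintype.exists_ne_map_eq_of_card_lt f hcard
      have h1 : s(c (j, true), c (j, false)) = s(c (j', true), c (j', false)) :=
        congrArg Subtype.val heq
      rw [Sym2.eq_iff] at h1
      rcases h1 with ⟨h2, h3⟩ | ⟨h2, h3⟩
      · refine Matrix.det_zero_of_column_eq hne fun i => ?_
        simp only [Matrix.of_apply, h2, h3]
      · rw [← Matrix.exists_mulVec_eq_zero_iff]
        refine ⟨Pi.single j 1 + Pi.single j' 1, ?_, ?_⟩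
        · intro h
          have := congrFun h j
          simp [hne] at this
        · rw [Matrix.mulVec_add, Matrix.mulVec_single_one, Matrix.mulVec_single_one]
          funext i
          simp only [Pi.add_apply, Matrix.col_apply, Matrix.of_apply, Pi.zero_apply]
          rw [minor_eq, minor_eq, h2, h3]
          ring
  · intro q A hA _ σ _
    refine hz A ?_ σ
    rw [hA]
    simp

end comb

section sbox

open FF

variable {X : Type}

/-- The symmetric exterior product. -/
noncomputable def sbox (a b : X →₀ ℚ) : X × X →₀ ℚ := box a b + box b a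

theorem sbox_comm (a b : X →₀ ℚ) : sbox a b = sbox b a := add_comm _ _

/-- `sbox` as a linear map. -/
noncomputable def sboxL (b : X →₀ ℚ) : (X →₀ ℚ) →ₗ[ℚ] (X × X →₀ ℚ) := boxL b + boxR b

theorem sboxL_apply (a b : X →₀ ℚ) : sboxL b a = sbox a b := rfl

theorem sbox_eq_sum (v : Bool → X →₀ ℚ) : sbox (v true) (v false) =
    ∑ e : Perm Bool, box (v (e true)) (v (e false)) := by
  have h : (Finset.univ : Finset (Perm Bool)) = {1, swap true false} := by decide
  rw [h, Finset.sum_pair (by decide)]
  simp [sbox]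

variable {F : Type} [Field F] [Algebra ℂ F] [IsFF ℂ F] {ι : Type} [Fintype ι] [DecidableEq ι]

/-- Products of more than `g (g - 1) / 2` symmetric cycles of the same type. -/
theorem sub_sym {W : Place ℂ F → Place ℂ F →₀ ℚ} {g : ℕ} (hk : Kills W g)
    (hf : W ∈ Fam F (Place ℂ F)) (o : Place ℂ F) (A : Finset ι) (hA : g.choose 2 < A.card)
    (x y : ι → Place ℂ F) (a : ι → Place ℂ F × Place ℂ F →₀ ℚ)
    (ha : ∀ i ∈ A, a i = sbox (W (x i) - W o) (W (y i) - W o)) :
    ∑ ρ : Perm A, ((Perm.sign ρ : ℤ) : ℚ) • cross (fun j => a (Perm.ofSubtype ρ j)) ∈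
      RatQ (ι → Place ℂ F × Place ℂ F) := by
  classical
  obtain ⟨m, hm⟩ : ∃ m, Fintype.card A = m := ⟨_, rfl⟩
  obtain e := (Fintype.equivFinOfCardEq hm).symm
  rw [Fintype.card_coe] at hm
  let N := RatQ (ι → Place ℂ F × Place ℂ F)
  let Φ : MultilinearMap ℚ (fun _ : Fin m => Place ℂ F × Place ℂ F →₀ ℚ)
      (((ι → Place ℂ F × Place ℂ F) →₀ ℚ) ⧸ N) := N.mkQ.compMultilinearMap (subCross A e a)
  have hΦ : ∀ v, Φ v = N.mkQ (cross fun i => if h : i ∈ A then v (e.symm ⟨i, h⟩) else a i) :=
    fun v => rfl
  let pt : Fin m × Bool → Place ℂ F := fun k => if k.2 then x (e k.1) else y (e k.1)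
  let v : Fin m × Bool → Place ℂ F →₀ ℚ := fun k => W (pt k) - W o
  -- families
  have hfam : ∀ (L : Type) [Field L] [Algebra ℂ L] [IsFF ℂ L] (h : L), h ≠ 0 →
      ∀ c : Fin m → Place ℂ L → Place ℂ F × Place ℂ F →₀ ℚ,
      (∀ j, c j ∈ Fam L (Place ℂ F × Place ℂ F)) →
      (divisor ℂ h).sum (fun P n => (n : ℚ) • Φ fun j => c j P) = 0 := by
    intro L _ _ _ h hh c hc
    have h1 : dv h (fun P => cross fun i => (if hi : i ∈ A then c (e.symm ⟨i, hi⟩) P else a i)) ∈
        RatQ (ι → Place ℂ F × Place ℂ F) := by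
      refine dv_cross_mem hh (fun i P => if hi : i ∈ A then c (e.symm ⟨i, hi⟩) P else a i)
        fun i => ?_
      by_cases hi : i ∈ A
      · simp only [hi, dif_pos]
        exact hc _
      · simp only [hi, dif_neg, not_false_eq_true]
        exact fam_const _
    rw [← Submodule.Quotient.mk_eq_zero, ← Submodule.mkQ_apply] at h1
    rw [← h1, dv, Finsupp.sum, Finsupp.sum, map_sum]
    refine Finset.sum_congr rfl fun P _ => ?_
    rw [map_smul]
    rfl
  -- the multilinear map on all positions
  have hupd : ∀ (u : Fin m × Bool → Place ℂ F →₀ ℚ) (k : Fin m × Bool) (w : Place ℂ F →₀ ℚ),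
      (fun j => box (Function.update u k w (j, true)) (Function.update u k w (j, false))) =
      Function.update (fun j => box (u (j, true)) (u (j, false))) k.1
        (if k.2 then boxL (u (k.1, false)) w else boxR (u (k.1, true)) w) := by
    rintro u ⟨j, b⟩ w
    funext j'
    by_cases hj : j' = j
    · subst hj
      cases b <;> simp [boxL_apply, boxR_apply]
    · cases b <;> simp [hj]
  let Ψ : MultilinearMap ℚ (fun _ : Fin m × Bool => Place ℂ F →₀ ℚ)
      (((ι → Place ℂ F × Place ℂ F) →₀ ℚ) ⧸ N) :=
    { toFun := fun u => Φ fun j => box (u (j, true)) (u (j, false))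
      map_update_add' := by
        intro d u k w w'
        obtain rfl : d = instDecidableEqProd := Subsingleton.elim _ _
        rw [hupd, hupd, hupd]
        split_ifs with hb
        · rw [map_add, Φ.map_update_add]
        · rw [map_add, Φ.map_update_add]
      map_update_smul' := by
        intro d u k r w
        obtain rfl : d = instDecidableEqProd := Subsingleton.elim _ _
        rw [hupd, hupd]
        split_ifs with hb
        · rw [map_smul, Φ.map_update_smul]
        · rw [map_smul, Φ.map_update_smul] }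
  have hΨ : ∀ u, Ψ u = Φ fun j => box (u (j, true)) (u (j, false)) := fun u => rfl
  have hR : PRel Ψ W := by
    intro B _ v' h hh
    have h0 : ∀ k : Fin m × Bool, (fun P => B.piecewise (fun _ => W P) v' k) ∈
        Fam F (Place ℂ F) := by
      intro k
      by_cases hk' : k ∈ B
      · simp only [Finset.piecewise_eq_of_mem _ _ _ hk']
        exact hf
      · simp only [Finset.piecewise_eq_of_notMem _ _ _ hk']
        exact fam_const _
    exact hfam F h hh (fun j P => box (B.piecewise (fun _ => W P) v' (j, true))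
      (B.piecewise (fun _ => W P) v' (j, false))) fun j => fam_box (h0 _) (h0 _)
  have key := alt_sym (m := m) (g := g) (by rw [← hm]; exact hA)
    (fun π : Perm (Fin m × Bool) => Ψ fun k => v (π k)) ?_
  · rw [← Submodule.Quotient.mk_eq_zero, ← Submodule.mkQ_apply, ← key, map_sum]
    refine (Fintype.sum_equiv e.permCongr _ _ fun σ => ?_).symm
    rw [map_smul]
    congr 1
    · rw [Perm.sign_permCongr]
    · have h1 : (fun i => if h : i ∈ A then (fun j => ∑ ε : Perm Bool,
          box (v (σ j, ε true)) (v (σ j, ε false))) (e.symm ⟨i, h⟩) else a i) =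
          fun j => a (Perm.ofSubtype (e.permCongr σ) j) := by
        funext i
        by_cases hi : i ∈ A
        · rw [dif_pos hi, Perm.ofSubtype_apply_of_mem _ hi, ha _ (Subtype.coe_prop _),
            Equiv.permCongr_apply]
          exact (sbox_eq_sum fun b => v (σ (e.symm ⟨i, hi⟩), b)).symm
        · rw [dif_neg hi, Perm.ofSubtype_apply_of_not_mem _ hi]
      rw [← h1]
      change _ = Φ fun j => ∑ ε : Perm Bool, box (v (σ j, ε true)) (v (σ j, ε false))
      rw [MultilinearMap.map_sum]
      rfl
  · intro A' hA' σ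
    have h1 := hk _ _ Ψ hR A' (by rw [hA']; exact Nat.lt_succ_self _) o
      (fun k => pt (σ k)) (fun k => v (σ k))
    rw [← h1]
    refine Finset.sum_congr rfl fun ρ _ => ?_
    congr 1
    funext k
    rw [Perm.mul_apply]
    by_cases hj : k ∈ A'
    · rw [Finset.piecewise_eq_of_mem _ _ _ hj]
    · rw [Finset.piecewise_eq_of_notMem _ _ _ hj, Perm.ofSubtype_apply_of_not_mem _ hj]

end sbox

end Pool.Agent.H46Z
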