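import Pool.Agent.H46Z.Defs

/-!
# Symmetric squares of curves and their quotients: the definitions
-/

set_option autoImplicit false

open FF

namespace Pool.Agent.H46Z

/-- The morphisms to the symmetric square of `X` which can be lifted to `X × X`. -/
instance sym2Points (X : Type) [Points X] : Points (Sym2 X) where
  IsMor := fun {L} _ _ m => ∃ n : Place ℂ L → X × X, IsMor n ∧ ∀ Q, m Q = s((n Q).1, (n Q).2)

/-- The cycle `∑ a({x, y}) (x + y)` on `X` of a cycle `a` on the symmetric square. -/
noncomputable def sumPts {X : Type} (a : Sym2 X →₀ ℤ) : X →₀ ℤ :=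
  a.sum fun s n => Finsupp.single (Quot.out s).1 n + Finsupp.single (Quot.out s).2 n

section quo

variable {F : Type} [Field F] [Algebra ℂ F] {r : ℕ} (ρ : Signs r →* (F ≃ₐ[ℂ] F))

/-- The quotient of the symmetric square of the curve by the group `G`: its points are the orbits of
the group generated by `G` and the exchange of the factors. -/
def SQuo : Type :=
  Quot fun p q : Place ℂ F × Place ℂ F =>
    ∃ g, q = (act ρ g p.1, act ρ g p.2) ∨ q = (act ρ g p.2, act ρ g p.1)

/-- The orbit of a point. -/
def SQuo.mk (p : Place ℂ F × Place ℂ F) : SQuo ρ := Quot.mk _ p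

/-- A point of an orbit. -/
noncomputable def SQuo.out {ρ : Signs r →* (F ≃ₐ[ℂ] F)} (s : SQuo ρ) : Place ℂ F × Place ℂ F :=
  Quot.out s

/-- The morphisms to the quotient which can be lifted to the product of the curve by itself. -/
instance squoPoints : Points (SQuo ρ) where
  IsMor := fun {L} _ _ m => ∃ n : Place ℂ L → Place ℂ F × Place ℂ F, IsMor n ∧
    ∀ Q, m Q = SQuo.mk ρ (n Q)

/-- The cycle `∑ a({x, y}) ∑_g (g x + g y)` on the curve. -/
noncomputable def sumOrb (a : SQuo ρ →₀ ℤ) : Place ℂ F →₀ ℤ :=
  a.sum fun s n => ∑ g, (Finsupp.single (act ρ g (SQuo.out s).1) n +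
    Finsupp.single (act ρ g (SQuo.out s).2) n)

end quo

end Pool.Agent.H46Z
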