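import Pool.Agent.H46Z.Quo

/-!
# Alternating products of Albanese-trivial cycles on quotients of products of two curves
-/

set_option autoImplicit false
set_option linter.unusedSectionVars false

open FF Module IntermediateField

namespace Pool.Agent.H46Z

section main

variable {F₁ F₂ : Type} [Field F₁] [Algebra ℂ F₁] [IsFF ℂ F₁] [Field F₂] [Algebra ℂ F₂]
  [IsFF ℂ F₂] {r : ℕ} (ρ₁ : Signs r →* (F₁ ≃ₐ[ℂ] F₁)) (ρ₂ : Signs r →* (F₂ ≃ₐ[ℂ] F₂))

/-- The elementary cycles of type `T`. -/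
def gens (o₁ : Place ℂ F₁) (o₂ : Place ℂ F₂) (T : Finset (Fin r)) :
    Set (Place ℂ F₁ × Place ℂ F₂ →₀ ℚ) :=
  {c | ∃ x y, c = box (wt ρ₁ T x - wt ρ₁ T o₁) (wt ρ₂ T y - wt ρ₂ T o₂)}

theorem wt_half {F : Type} [Field F] [Algebra ℂ F] (ρ : Signs r →* (F ≃ₐ[ℂ] F))
    {T : Finset (Fin r)} {g : Signs r} (hg : chi T g = -1) (x o : Place ℂ F) :
    wt ρ T x = (1 / 2 : ℚ) • ((wt ρ T x - wt ρ T o) - (wt ρ T (act ρ g x) - wt ρ T o)) := by
  rw [wt_act, hg]
  simp only [Units.val_neg, Units.val_one, Int.cast_neg, Int.cast_one, neg_smul, one_smul]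
  rw [sub_sub_sub_cancel_right, sub_neg_eq_add, ← two_smul ℚ, smul_smul]
  norm_num

theorem box_wt_mem (o₁ : Place ℂ F₁) (o₂ : Place ℂ F₂) (T : Finset (Fin r)) (hT : T.Nonempty)
    (x : Place ℂ F₁) (y : Place ℂ F₂) :
    box (wt ρ₁ T x) (wt ρ₂ T y) ∈ Submodule.span ℚ (gens ρ₁ ρ₂ o₁ o₂ T) := by
  classical
  obtain ⟨i, hi⟩ := hT
  have hg : chi T (Pi.mulSingle i (-1) : Signs r) = -1 := by
    rw [chi_apply, Finset.prod_eq_single i]
    · simp
    · intro j _ hj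
      exact Pi.mulSingle_eq_of_ne hj _
    · intro h
      exact absurd hi h
  set g : Signs r := Pi.mulSingle i (-1)
  have hm : ∀ x y, box (wt ρ₁ T x - wt ρ₁ T o₁) (wt ρ₂ T y - wt ρ₂ T o₂) ∈
      Submodule.span ℚ (gens ρ₁ ρ₂ o₁ o₂ T) := fun x y => Submodule.subset_span ⟨x, y, rfl⟩
  rw [wt_half ρ₁ hg x o₁, wt_half ρ₂ hg y o₂, ← boxL_apply, map_smul, map_sub]
  refine Submodule.smul_mem _ _ (sub_mem ?_ ?_)
  all_goals
    rw [boxL_apply, ← boxR_apply, map_smul, map_sub]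
    refine Submodule.smul_mem _ _ (sub_mem ?_ ?_)
    all_goals exact hm _ _

theorem toQ_divisor {F : Type} [Field F] [Algebra ℂ F] [IsFF ℂ F] {f : F} (hf : f ≠ 0) :
    toQ _ (divisor ℂ f) ∈ RatQ (Place ℂ F) := by
  have h1 := toQ_mapDomain f (fun P : Place ℂ F => P)
  have h2 : (divisor ℂ f).mapDomain (fun P : Place ℂ F => P) = divisor ℂ f := Finsupp.mapDomain_id
  rw [h2] at h1
  rw [h1]
  exact dv_mem hf (fam_mor (isMor_id F))

/-- The condition that a cycle on `(C₁ × C₂) / G` has the Albanese image zero: its images in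
`C₁ / G` and `C₂ / G`, pulled back to `C₁` and `C₂`, are principal. -/
def AlbTrivial (a : Quo ρ₁ ρ₂ →₀ ℤ) : Prop :=
  Principal (toC₁ ρ₁ ρ₂ a) ∧ Principal (toC₂ ρ₁ ρ₂ a)

theorem toQ_eq_sum {X : Type} (a : X →₀ ℤ) :
    toQ X a = ∑ s ∈ a.support, Finsupp.single s (a s : ℚ) := by
  conv_lhs => rw [← Finsupp.sum_single a]
  rw [Finsupp.sum, map_sum]
  exact Finset.sum_congr rfl fun s _ => toQ_single _ _

theorem wt_empty {F : Type} [Field F] [Algebra ℂ F] (ρ : Signs r →* (F ≃ₐ[ℂ] F))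
    (x : Place ℂ F) : wt ρ ∅ x = ∑ g, Finsupp.single (act ρ g x) 1 := by
  unfold wt
  refine Finset.sum_congr rfl fun g _ => ?_
  rw [chi_apply, Finset.prod_empty]
  simp

theorem toQ_toC₁ (a : Quo ρ₁ ρ₂ →₀ ℤ) :
    toQ _ (toC₁ ρ₁ ρ₂ a) = ∑ s ∈ a.support, (a s : ℚ) • wt ρ₁ ∅ (Quo.out s).1 := by
  rw [toC₁, Finsupp.sum, map_sum]
  refine Finset.sum_congr rfl fun s _ => ?_
  rw [map_sum, wt_empty, Finset.smul_sum]
  refine Finset.sum_congr rfl fun g _ => ?_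
  rw [toQ_single, Finsupp.smul_single, smul_eq_mul, mul_one]

theorem toQ_toC₂ (a : Quo ρ₁ ρ₂ →₀ ℤ) :
    toQ _ (toC₂ ρ₁ ρ₂ a) = ∑ s ∈ a.support, (a s : ℚ) • wt ρ₂ ∅ (Quo.out s).2 := by
  rw [toC₂, Finsupp.sum, map_sum]
  refine Finset.sum_congr rfl fun s _ => ?_
  rw [map_sum, wt_empty, Finset.smul_sum]
  refine Finset.sum_congr rfl fun g _ => ?_
  rw [toQ_single, Finsupp.smul_single, smul_eq_mul, mul_one]

/-- The sum of the coefficients. -/
noncomputable def tot (X : Type) : (X →₀ ℚ) →ₗ[ℚ] ℚ := Finsupp.linearCombination ℚ fun _ => 1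

theorem tot_single {X : Type} (x : X) (q : ℚ) : tot X (Finsupp.single x q) = q := by
  rw [tot, Finsupp.linearCombination_single, smul_eq_mul, mul_one]

theorem tot_toQ {X : Type} (a : X →₀ ℤ) : tot X (toQ X a) = a.sum fun _ n => (n : ℚ) := by
  rw [toQ_eq_sum, map_sum, Finsupp.sum]
  exact Finset.sum_congr rfl fun s _ => tot_single _ _

theorem deg_zero {a : Quo ρ₁ ρ₂ →₀ ℤ} (ha : AlbTrivial ρ₁ ρ₂ a) :
    ∑ s ∈ a.support, (a s : ℚ) = 0 := by
  obtain ⟨⟨f, hf, h⟩, -⟩ := ha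
  have h1 := tot_toQ (divisor ℂ f)
  rw [sum_divisor, ← h, toQ_toC₁, map_sum] at h1
  have h2 : ∀ s ∈ a.support, tot (Place ℂ F₁) ((a s : ℚ) • wt ρ₁ ∅ (Quo.out s).1) =
      (a s : ℚ) * (Fintype.card (Signs r) : ℚ) := by
    intro s _
    rw [map_smul, wt_empty, map_sum, Finset.sum_congr rfl fun g _ => tot_single _ _,
      Finset.sum_const, Finset.card_univ, smul_eq_mul, nsmul_eq_mul, mul_one]
  rw [Finset.sum_congr rfl h2, ← Finset.sum_mul] at h1
  exact (mul_eq_zero.1 h1).resolve_right (Nat.cast_ne_zero.2 Fintype.card_ne_zero)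

theorem lft_toQ (a : Quo ρ₁ ρ₂ →₀ ℤ) : (2 ^ r : ℚ) • lft ρ₁ ρ₂ (toQ _ a) =
    ∑ T : Finset (Fin r), ∑ s ∈ a.support,
      (a s : ℚ) • box (wt ρ₁ T (Quo.out s).1) (wt ρ₂ T (Quo.out s).2) := by
  rw [toQ_eq_sum, map_sum, Finset.smul_sum, Finset.sum_comm]
  refine Finset.sum_congr rfl fun s _ => ?_
  rw [lft, Finsupp.linearCombination_single, smul_comm, orb_eq, Finset.smul_sum]

theorem lft_decomp (o₁ : Place ℂ F₁) (o₂ : Place ℂ F₂) {a : Quo ρ₁ ρ₂ →₀ ℤ}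
    (ha : AlbTrivial ρ₁ ρ₂ a) : ∃ c : Finset (Fin r) → (Place ℂ F₁ × Place ℂ F₂ →₀ ℚ),
    (∀ T, c T ∈ Submodule.span ℚ (gens ρ₁ ρ₂ o₁ o₂ T)) ∧
    (2 ^ r : ℚ) • lft ρ₁ ρ₂ (toQ _ a) - ∑ T, c T ∈ RatQ (Place ℂ F₁ × Place ℂ F₂) := by
  classical
  let c : Finset (Fin r) → (Place ℂ F₁ × Place ℂ F₂ →₀ ℚ) := fun T =>
    if T = ∅ then ∑ s ∈ a.support, (a s : ℚ) • box (wt ρ₁ T (Quo.out s).1 - wt ρ₁ T o₁)
      (wt ρ₂ T (Quo.out s).2 - wt ρ₂ T o₂)
    else ∑ s ∈ a.support, (a s : ℚ) • box (wt ρ₁ T (Quo.out s).1) (wt ρ₂ T (Quo.out s).2)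
  refine ⟨c, fun T => ?_, ?_⟩
  · by_cases hT : T = ∅
    · simp only [c, if_pos hT]
      exact Submodule.sum_mem _ fun s _ => Submodule.smul_mem _ _
        (Submodule.subset_span ⟨_, _, rfl⟩)
    · simp only [c, if_neg hT]
      exact Submodule.sum_mem _ fun s _ => Submodule.smul_mem _ _
        (box_wt_mem ρ₁ ρ₂ o₁ o₂ T (Finset.nonempty_iff_ne_empty.2 hT) _ _)
  · rw [lft_toQ, ← Finset.sum_sub_distrib]
    rw [Finset.sum_eq_single ∅]
    · simp only [c, if_true]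
      rw [← Finset.sum_sub_distrib]
      have h1 : ∀ s ∈ a.support, (a s : ℚ) • box (wt ρ₁ ∅ (Quo.out s).1) (wt ρ₂ ∅ (Quo.out s).2) -
          (a s : ℚ) • box (wt ρ₁ ∅ (Quo.out s).1 - wt ρ₁ ∅ o₁) (wt ρ₂ ∅ (Quo.out s).2 - wt ρ₂ ∅ o₂) =
          (a s : ℚ) • box (wt ρ₁ ∅ (Quo.out s).1) (wt ρ₂ ∅ o₂) +
          (a s : ℚ) • box (wt ρ₁ ∅ o₁) (wt ρ₂ ∅ (Quo.out s).2) -
          (a s : ℚ) • box (wt ρ₁ ∅ o₁) (wt ρ₂ ∅ o₂) := by
        intro s _
        rw [← smul_sub, ← smul_add, ← smul_sub]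
        congr 1
        ext p
        simp only [box_apply, Finsupp.sub_apply, Finsupp.add_apply]
        ring
      rw [Finset.sum_congr rfl h1, Finset.sum_sub_distrib, Finset.sum_add_distrib, ← Finset.sum_smul,
        deg_zero ρ₁ ρ₂ ha, zero_smul, sub_zero]
      obtain ⟨⟨f, hf, h⟩, ⟨f', hf', h'⟩⟩ := ha
      refine add_mem ?_ ?_
      · have h2 : ∑ s ∈ a.support, (a s : ℚ) • box (wt ρ₁ ∅ (Quo.out s).1) (wt ρ₂ ∅ o₂) =
            box (toQ _ (divisor ℂ f)) (wt ρ₂ ∅ o₂) := by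
          rw [← h, toQ_toC₁, ← boxL_apply, map_sum]
          refine Finset.sum_congr rfl fun s _ => ?_
          rw [map_smul, boxL_apply]
        rw [h2]
        exact box_mem_left (toQ_divisor hf) _
      · have h2 : ∑ s ∈ a.support, (a s : ℚ) • box (wt ρ₁ ∅ o₁) (wt ρ₂ ∅ (Quo.out s).2) =
            box (wt ρ₁ ∅ o₁) (toQ _ (divisor ℂ f')) := by
          rw [← h', toQ_toC₂, ← boxR_apply, map_sum]
          refine Finset.sum_congr rfl fun s _ => ?_
          rw [map_smul, boxR_apply]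
        rw [h2]
        exact box_mem_right _ (toQ_divisor hf')
    · intro T _ hT
      simp only [c, if_neg hT, sub_self]
    · intro h
      exact absurd (Finset.mem_univ _) h

variable {ι : Type} [Fintype ι] [DecidableEq ι]

/-- Alternating sums of sums of cycles of the various types. -/
theorem alt_types (o₁ : Place ℂ F₁) (o₂ : Place ℂ F₂)
    (hι : ∑ T : Finset (Fin r), quotGenus ρ₁ T * quotGenus ρ₂ T < Fintype.card ι)
    (c : ι → Finset (Fin r) → (Place ℂ F₁ × Place ℂ F₂ →₀ ℚ))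
    (hc : ∀ i T, c i T ∈ Submodule.span ℚ (gens ρ₁ ρ₂ o₁ o₂ T)) :
    altC (fun i => ∑ T, c i T) ∈ RatQ (ι → Place ℂ F₁ × Place ℂ F₂) := by
  classical
  rw [← altM_apply, MultilinearMap.map_sum]
  refine Submodule.sum_mem _ fun t _ => ?_
  obtain ⟨T, hT⟩ : ∃ T, quotGenus ρ₁ T * quotGenus ρ₂ T <
      (Finset.univ.filter fun i => t i = T).card := by
    by_contra hcon
    push Not at hcon
    have h1 : Fintype.card ι = ∑ T : Finset (Fin r), (Finset.univ.filter fun i => t i = T).card := by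
      rw [← Finset.card_univ]
      exact Finset.card_eq_sum_card_fiberwise fun i _ => Finset.mem_univ _
    have h2 := Finset.sum_le_sum fun T (_ : T ∈ (Finset.univ : Finset (Finset (Fin r)))) => hcon T
    omega
  refine multilin_mem (altM ι _) (RatQ (ι → Place ℂ F₁ × Place ℂ F₂))
    (fun i => gens ρ₁ ρ₂ o₁ o₂ (t i)) (fun v hv => ?_) _ fun i => hc i _
  choose x y hxy using hv
  rw [altM_apply]
  refine altC_of_sub v (Finset.univ.filter fun i => t i = T)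
    (sub_type (kills_wt ρ₁ T) (kills_wt ρ₂ T) (fam_wt ρ₁ T) (fam_wt ρ₂ T) o₁ o₂ _ hT x y v
      fun i hi => ?_)
  rw [← (Finset.mem_filter.1 hi).2]
  exact hxy i

theorem altC_smul (q : ℚ) (b : ι → Place ℂ F₁ × Place ℂ F₂ →₀ ℚ) :
    altC (fun i => q • b i) = q ^ Fintype.card ι • altC b := by
  rw [← altM_apply, ← altM_apply, MultilinearMap.map_smul_univ, Finset.prod_const,
    Finset.card_univ]

theorem altC_congr {X : Type} [Points X] [HasConst X] (a b : ι → X →₀ ℚ)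
    (h : ∀ i, a i - b i ∈ RatQ X) : altC a - altC b ∈ RatQ (ι → X) := by
  unfold altC
  rw [← Finset.sum_sub_distrib]
  refine Submodule.sum_mem _ fun σ _ => ?_
  rw [← smul_sub]
  exact Submodule.smul_mem _ _ (cross_congr _ _ fun i => h (σ i))

theorem pshP_altC (b : ι → Place ℂ F₁ × Place ℂ F₂ →₀ ℚ) :
    pshP ρ₁ ρ₂ ι (altC b) = altC fun i => psh ρ₁ ρ₂ (b i) := by
  unfold altC
  rw [map_sum]
  refine Finset.sum_congr rfl fun σ _ => ?_
  rw [map_smul, pshP_cross]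

theorem main (hι : ∑ T : Finset (Fin r), quotGenus ρ₁ T * quotGenus ρ₂ T < Fintype.card ι)
    (a : ι → Quo ρ₁ ρ₂ →₀ ℤ) (ha : ∀ i, AlbTrivial ρ₁ ρ₂ (a i)) :
    altC (fun i => toQ _ (a i)) ∈ RatQ (ι → Quo ρ₁ ρ₂) := by
  classical
  by_cases hne : Nonempty (Place ℂ F₁ × Place ℂ F₂)
  · obtain ⟨⟨o₁, o₂⟩⟩ := hne
    choose c hc hc' using fun i => lft_decomp ρ₁ ρ₂ o₁ o₂ (ha i)
    have h1 := alt_types ρ₁ ρ₂ o₁ o₂ hι c hc
    have h2 := altC_congr _ _ hc'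
    have h3 : altC (fun i => (2 ^ r : ℚ) • lft ρ₁ ρ₂ (toQ _ (a i))) ∈
        RatQ (ι → Place ℂ F₁ × Place ℂ F₂) := by
      have := add_mem h2 h1
      rwa [sub_add_cancel] at this
    have h4 := pshP_mem ρ₁ ρ₂ h3
    rw [pshP_altC] at h4
    have h5 : (fun i => psh ρ₁ ρ₂ ((2 ^ r : ℚ) • lft ρ₁ ρ₂ (toQ _ (a i)))) =
        fun i => (2 ^ r * 2 ^ r : ℚ) • toQ _ (a i) := by
      funext i
      rw [map_smul, psh_lft, smul_smul]
    rw [h5, ← altM_apply, MultilinearMap.map_smul_univ, altM_apply] at h4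
    refine (Submodule.smul_mem_iff _ ?_).1 h4
    exact Finset.prod_ne_zero_iff.2 fun i _ => by positivity
  · have hcard : 0 < Fintype.card ι := lt_of_le_of_lt (Nat.zero_le _) hι
    obtain ⟨i⟩ := Fintype.card_pos_iff.1 hcard
    have : IsEmpty (ι → Quo ρ₁ ρ₂) := ⟨fun p => hne ⟨Quo.out (p i)⟩⟩
    rw [Subsingleton.elim (altC fun i => toQ _ (a i)) 0]
    exact zero_mem _

theorem main_int (hι : ∑ T : Finset (Fin r), quotGenus ρ₁ T * quotGenus ρ₂ T < Fintype.card ι)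
    (a : ι → Quo ρ₁ ρ₂ →₀ ℤ) (ha : ∀ i, AlbTrivial ρ₁ ρ₂ (a i)) :
    ∃ k : ℕ, 0 < k ∧ k • ∑ σ : Equiv.Perm ι, (Equiv.Perm.sign σ : ℤ) • cross (fun i => a (σ i)) ∈
      Rat (ι → Quo ρ₁ ρ₂) := by
  refine exists_mul_mem _ ?_
  have h1 : toQ _ (∑ σ : Equiv.Perm ι, (Equiv.Perm.sign σ : ℤ) • cross (fun i => a (σ i))) =
      altC (fun i => toQ _ (a i)) := by
    rw [map_sum, altC]
    refine Finset.sum_congr rfl fun σ _ => ?_
    rw [map_zsmul, toQ_cross, ← Int.cast_smul_eq_zsmul ℚ]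
  rw [h1]
  exact main ρ₁ ρ₂ hι a ha

end main

section prod

variable {F₁ F₂ : Type} [Field F₁] [Algebra ℂ F₁] [IsFF ℂ F₁] [Field F₂] [Algebra ℂ F₂]
  [IsFF ℂ F₂] {ι : Type} [Fintype ι] [DecidableEq ι]

theorem toQ_map {X Y : Type} (f : X → Y) (a : X →₀ ℤ) :
    toQ Y (a.mapDomain f) = ∑ s ∈ a.support, (a s : ℚ) • Finsupp.single (f s) (1 : ℚ) := by
  rw [Finsupp.mapDomain, Finsupp.sum, map_sum]
  refine Finset.sum_congr rfl fun s _ => ?_
  rw [toQ_single, Finsupp.smul_single, smul_eq_mul, mul_one]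

theorem prod_decomp (o₁ : Place ℂ F₁) (o₂ : Place ℂ F₂) {a : Place ℂ F₁ × Place ℂ F₂ →₀ ℤ}
    (h₁ : Principal (a.mapDomain Prod.fst)) (h₂ : Principal (a.mapDomain Prod.snd)) :
    toQ _ a - ∑ s ∈ a.support, (a s : ℚ) • box (Finsupp.single s.1 1 - Finsupp.single o₁ 1)
      (Finsupp.single s.2 1 - Finsupp.single o₂ 1) ∈ RatQ (Place ℂ F₁ × Place ℂ F₂) := by
  obtain ⟨f, hf, h₁⟩ := h₁
  obtain ⟨f', hf', h₂⟩ := h₂
  have hd : ∑ s ∈ a.support, (a s : ℚ) = 0 := by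
    have h1 := tot_toQ (divisor ℂ f)
    rw [sum_divisor, ← h₁, toQ_map, map_sum] at h1
    rw [← h1]
    refine Finset.sum_congr rfl fun s _ => ?_
    rw [map_smul, tot_single, smul_eq_mul, mul_one]
  rw [toQ_eq_sum, ← Finset.sum_sub_distrib]
  have h1 : ∀ s ∈ a.support, Finsupp.single s (a s : ℚ) -
      (a s : ℚ) • box (Finsupp.single s.1 1 - Finsupp.single o₁ 1)
        (Finsupp.single s.2 1 - Finsupp.single o₂ 1) =
      (a s : ℚ) • box (Finsupp.single s.1 1) (Finsupp.single o₂ 1) +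
      (a s : ℚ) • box (Finsupp.single o₁ 1) (Finsupp.single s.2 1) -
      (a s : ℚ) • box (Finsupp.single o₁ 1) (Finsupp.single o₂ 1) := by
    intro s _
    have h2 : Finsupp.single s (a s : ℚ) =
        (a s : ℚ) • box (Finsupp.single s.1 1) (Finsupp.single s.2 1) := by
      rw [box_single, Finsupp.smul_single, smul_eq_mul, mul_one, mul_one]
    rw [h2, ← smul_sub, ← smul_add, ← smul_sub]
    congr 1
    ext p
    simp only [box_apply, Finsupp.sub_apply, Finsupp.add_apply]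
    ring
  rw [Finset.sum_congr rfl h1, Finset.sum_sub_distrib, Finset.sum_add_distrib, ← Finset.sum_smul,
    hd, zero_smul, sub_zero]
  refine add_mem ?_ ?_
  · have h2 : ∑ s ∈ a.support, (a s : ℚ) • box (Finsupp.single s.1 (1 : ℚ))
        (Finsupp.single o₂ (1 : ℚ)) = box (toQ _ (divisor ℂ f)) (Finsupp.single o₂ 1) := by
      rw [← h₁, toQ_map, ← boxL_apply, map_sum]
      refine Finset.sum_congr rfl fun s _ => ?_
      rw [map_smul, boxL_apply]
    rw [h2]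
    exact box_mem_left (toQ_divisor hf) _
  · have h2 : ∑ s ∈ a.support, (a s : ℚ) • box (Finsupp.single o₁ (1 : ℚ))
        (Finsupp.single s.2 (1 : ℚ)) = box (Finsupp.single o₁ 1) (toQ _ (divisor ℂ f')) := by
      rw [← h₂, toQ_map, ← boxR_apply, map_sum]
      refine Finset.sum_congr rfl fun s _ => ?_
      rw [map_smul, boxR_apply]
    rw [h2]
    exact box_mem_right _ (toQ_divisor hf')

/-- The case of a product of two curves. -/
theorem prod_int (hι : genus F₁ * genus F₂ < Fintype.card ι)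
    (a : ι → Place ℂ F₁ × Place ℂ F₂ →₀ ℤ) (h₁ : ∀ i, Principal ((a i).mapDomain Prod.fst))
    (h₂ : ∀ i, Principal ((a i).mapDomain Prod.snd)) :
    ∃ k : ℕ, 0 < k ∧ k • ∑ σ : Equiv.Perm ι, (Equiv.Perm.sign σ : ℤ) • cross (fun i => a (σ i)) ∈
      Rat (ι → Place ℂ F₁ × Place ℂ F₂) := by
  classical
  refine exists_mul_mem _ ?_
  have h1 : toQ _ (∑ σ : Equiv.Perm ι, (Equiv.Perm.sign σ : ℤ) • cross (fun i => a (σ i))) =
      altC (fun i => toQ _ (a i)) := by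
    rw [map_sum, altC]
    refine Finset.sum_congr rfl fun σ _ => ?_
    rw [map_zsmul, toQ_cross, ← Int.cast_smul_eq_zsmul ℚ]
  rw [h1]
  by_cases hne : Nonempty (Place ℂ F₁ × Place ℂ F₂)
  · obtain ⟨⟨o₁, o₂⟩⟩ := hne
    have h2 := altC_congr _ _ fun i => prod_decomp o₁ o₂ (h₁ i) (h₂ i)
    have h3 : altC (fun i => ∑ s ∈ (a i).support, (a i s : ℚ) •
        box (Finsupp.single s.1 1 - Finsupp.single o₁ 1)
          (Finsupp.single s.2 1 - Finsupp.single o₂ 1)) ∈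
        RatQ (ι → Place ℂ F₁ × Place ℂ F₂) := by
      rw [← altM_apply]
      refine multilin_mem (altM ι _) (RatQ (ι → Place ℂ F₁ × Place ℂ F₂))
        (fun _ => {c | ∃ x y, c = box (Finsupp.single x 1 - Finsupp.single o₁ 1)
          (Finsupp.single y 1 - Finsupp.single o₂ 1)}) (fun v hv => ?_) _ fun i =>
        Submodule.sum_mem _ fun s _ => Submodule.smul_mem _ _
          (Submodule.subset_span ⟨_, _, rfl⟩)
      choose x y hxy using hv
      rw [altM_apply]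
      refine altC_of_sub v Finset.univ
        (sub_type (W₁ := fun P => Finsupp.single P 1) (W₂ := fun P => Finsupp.single P 1)
          (kills_genus _) (kills_genus _) (fam_mor (isMor_id F₁)) (fam_mor (isMor_id F₂)) o₁ o₂ _
          (by rwa [Finset.card_univ]) x y v fun i _ => hxy i)
    have := add_mem h2 h3
    rwa [sub_add_cancel] at this
  · have hcard : 0 < Fintype.card ι := lt_of_le_of_lt (Nat.zero_le _) hι
    obtain ⟨i⟩ := Fintype.card_pos_iff.1 hcard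
    have : IsEmpty (ι → Place ℂ F₁ × Place ℂ F₂) := ⟨fun p => hne ⟨p i⟩⟩
    rw [Subsingleton.elim (altC fun i => toQ _ (a i)) 0]
    exact zero_mem _

end prod

end Pool.Agent.H46Z
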