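import Pool.Agent.H46Z.SymDefs
import Pool.Agent.H46Z.SymAlt
import Pool.Agent.H46Z.ThmC

/-!
# Alternating products of Albanese-trivial cycles on symmetric squares
-/

set_option autoImplicit false
set_option linter.unusedSectionVars false

open FF Module IntermediateField

namespace Pool.Agent.H46Z

section desc

variable {X Y : Type} [Points X] [Points Y] {ι : Type} [Fintype ι] [DecidableEq ι]

theorem map_cross (q : X → Y) (a : ι → X →₀ ℚ) :
    Finsupp.lmapDomain ℚ ℚ (fun (p : ι → X) i => q (p i)) (cross a) =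
      cross fun i => Finsupp.lmapDomain ℚ ℚ q (a i) := by
  have h : (Finsupp.lmapDomain ℚ ℚ (fun (p : ι → X) i => q (p i))).compMultilinearMap (crossM ι X) =
      (crossM ι Y).compLinearMap fun _ => Finsupp.lmapDomain ℚ ℚ q := by
    refine Module.Basis.ext_multilinear (fun _ => Finsupp.basisSingleOne) fun v => ?_
    simp only [LinearMap.compMultilinearMap_apply, Finsupp.coe_basisSingleOne, crossM_apply,
      MultilinearMap.compLinearMap_apply]
    rw [cross_single, Finsupp.lmapDomain_apply, Finsupp.mapDomain_single]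
    simp only [Finsupp.lmapDomain_apply, Finsupp.mapDomain_single]
    rw [cross_single]
  have h2 := MultilinearMap.congr_fun h a
  simpa only [LinearMap.compMultilinearMap_apply, crossM_apply,
    MultilinearMap.compLinearMap_apply] using h2

/-- Push-forward of relations to a quotient. -/
theorem descend (q : X → Y)
    (hq : ∀ {L : Type} [Field L] [Algebra ℂ L] (m : Place ℂ L → X), IsMor m →
      IsMor fun P => q (m P))
    (lam : Y → X →₀ ℚ) (N : ℚ) (hN : N ≠ 0)
    (hlam : ∀ s, Finsupp.lmapDomain ℚ ℚ q (lam s) = Finsupp.single s N) (a : ι → Y →₀ ℚ)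
    (h : altC (fun i => Finsupp.linearCombination ℚ lam (a i)) ∈ RatQ (ι → X)) :
    altC a ∈ RatQ (ι → Y) := by
  have h1 : RatQ (ι → X) ≤
      (RatQ (ι → Y)).comap (Finsupp.lmapDomain ℚ ℚ fun (p : ι → X) i => q (p i)) := by
    conv_lhs => unfold RatQ
    rw [Submodule.span_le]
    rintro _ ⟨L, i1, i2, i3, m, h, hm, hh, rfl⟩
    rw [SetLike.mem_coe, Submodule.mem_comap, map_dv]
    refine dv_mem hh ?_
    have h2 : (fun P => Finsupp.lmapDomain ℚ ℚ (fun (p : ι → X) i => q (p i))
        (Finsupp.single (m P) (1 : ℚ))) = fun P => Finsupp.single (fun i => q (m P i)) 1 := by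
      funext P
      rw [Finsupp.lmapDomain_apply, Finsupp.mapDomain_single]
    rw [h2]
    exact fam_mor fun j => hq _ (hm j)
  have h2 := h1 h
  rw [Submodule.mem_comap] at h2
  have h3 : ∀ z : Y →₀ ℚ, Finsupp.lmapDomain ℚ ℚ q (Finsupp.linearCombination ℚ lam z) =
      N • z := by
    intro z
    have h4 : (Finsupp.lmapDomain ℚ ℚ q) ∘ₗ (Finsupp.linearCombination ℚ lam) =
        N • LinearMap.id := by
      refine Finsupp.lhom_ext' fun s => LinearMap.ext_ring ?_
      simp only [LinearMap.comp_apply, Finsupp.lsingle_apply, Finsupp.linearCombination_single,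
        one_smul, hlam, LinearMap.smul_apply, LinearMap.id_apply]
      rw [Finsupp.smul_single, smul_eq_mul, mul_one]
    exact LinearMap.congr_fun h4 z
  have h4 : Finsupp.lmapDomain ℚ ℚ (fun (p : ι → X) i => q (p i))
      (altC fun i => Finsupp.linearCombination ℚ lam (a i)) =
      altC fun i => N • a i := by
    unfold altC
    rw [map_sum]
    refine Finset.sum_congr rfl fun σ _ => ?_
    rw [map_smul, map_cross]
    simp only [h3]
  rw [h4, ← altM_apply, MultilinearMap.map_smul_univ, altM_apply] at h2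
  exact (Submodule.smul_mem_iff _ (Finset.prod_ne_zero_iff.2 fun _ _ => hN)).1 h2

theorem toQ_alt (a : ι → Y →₀ ℤ) :
    toQ _ (∑ σ : Equiv.Perm ι, (Equiv.Perm.sign σ : ℤ) • cross (fun i => a (σ i))) =
      altC (fun i => toQ _ (a i)) := by
  rw [map_sum, altC]
  refine Finset.sum_congr rfl fun σ _ => ?_
  rw [map_zsmul, toQ_cross, ← Int.cast_smul_eq_zsmul ℚ]

end desc

section sym

variable {F : Type} [Field F] [Algebra ℂ F] [IsFF ℂ F] {ι : Type} [Fintype ι] [DecidableEq ι]

theorem sbox_mem_left {X : Type} [Points X] [HasConst X] {a : X →₀ ℚ} (ha : a ∈ RatQ X)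
    (b : X →₀ ℚ) : sbox a b ∈ RatQ (X × X) :=
  add_mem (box_mem_left ha b) (box_mem_right b ha)

/-- Subtraction of the base point, for a cycle whose image on the curve is principal. -/
theorem sym_decomp {Y : Type} (W : Place ℂ F → Place ℂ F →₀ ℚ) (o : Place ℂ F) (a : Y →₀ ℤ)
    (x y : Y → Place ℂ F)
    (ha : ∑ s ∈ a.support, (a s : ℚ) • (W (x s) + W (y s)) ∈ RatQ (Place ℂ F))
    (hd : ∑ s ∈ a.support, (a s : ℚ) = 0) :
    ∑ s ∈ a.support, (a s : ℚ) • sbox (W (x s)) (W (y s)) -
      ∑ s ∈ a.support, (a s : ℚ) • sbox (W (x s) - W o) (W (y s) - W o) ∈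
      RatQ (Place ℂ F × Place ℂ F) := by
  rw [← Finset.sum_sub_distrib]
  have h1 : ∀ s ∈ a.support, (a s : ℚ) • sbox (W (x s)) (W (y s)) -
      (a s : ℚ) • sbox (W (x s) - W o) (W (y s) - W o) =
      (a s : ℚ) • sbox (W (x s) + W (y s)) (W o) - (a s : ℚ) • sbox (W o) (W o) := by
    intro s _
    rw [← smul_sub, ← smul_sub]
    congr 1
    ext p
    simp only [sbox, box_apply, Finsupp.sub_apply, Finsupp.add_apply]
    ring
  rw [Finset.sum_congr rfl h1, Finset.sum_sub_distrib, ← Finset.sum_smul, hd, zero_smul, sub_zero]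
  have h2 : ∑ s ∈ a.support, (a s : ℚ) • sbox (W (x s) + W (y s)) (W o) =
      sbox (∑ s ∈ a.support, (a s : ℚ) • (W (x s) + W (y s))) (W o) := by
    rw [← sboxL_apply, map_sum]
    refine Finset.sum_congr rfl fun s _ => ?_
    rw [map_smul, sboxL_apply]
  rw [h2]
  exact sbox_mem_left ha _

theorem toQ_sumPts {X : Type} (a : Sym2 X →₀ ℤ) : toQ X (sumPts a) =
    ∑ s ∈ a.support, (a s : ℚ) • (Finsupp.single (Quot.out s).1 (1 : ℚ) +
      Finsupp.single (Quot.out s).2 (1 : ℚ)) := by
  rw [sumPts, Finsupp.sum, map_sum]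
  refine Finset.sum_congr rfl fun s _ => ?_
  rw [map_add, toQ_single, toQ_single, smul_add, Finsupp.smul_single, Finsupp.smul_single,
    smul_eq_mul, mul_one]

/-- The symmetric square of a curve. -/
theorem sym_int (hι : (genus F).choose 2 < Fintype.card ι) (a : ι → Sym2 (Place ℂ F) →₀ ℤ)
    (ha : ∀ i, Principal (sumPts (a i))) :
    ∃ k : ℕ, 0 < k ∧ k • ∑ σ : Equiv.Perm ι, (Equiv.Perm.sign σ : ℤ) • cross (fun i => a (σ i)) ∈
      Rat (ι → Sym2 (Place ℂ F)) := by
  classical
  refine exists_mul_mem _ ?_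
  rw [toQ_alt]
  by_cases hne : Nonempty (Place ℂ F)
  · obtain ⟨o⟩ := hne
    let lam : Sym2 (Place ℂ F) → (Place ℂ F × Place ℂ F →₀ ℚ) := fun s =>
      sbox (Finsupp.single (Quot.out s).1 1) (Finsupp.single (Quot.out s).2 1)
    refine descend (X := Place ℂ F × Place ℂ F) (Y := Sym2 (Place ℂ F)) (fun p => s(p.1, p.2))
      (fun m hm => by exact ⟨m, hm, fun Q => rfl⟩) lam 2 two_ne_zero (fun s => ?_) _ ?_
    · simp only [lam, sbox, box_single, map_add, Finsupp.lmapDomain_apply,
        Finsupp.mapDomain_single]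
      have h1 : s((Quot.out s).1, (Quot.out s).2) = s := Quot.out_eq s
      rw [Sym2.eq_swap (a := (Quot.out s).2), h1, ← Finsupp.single_add]
      norm_num
    · have h2 : ∀ i, Finsupp.linearCombination ℚ lam (toQ _ (a i)) -
          ∑ s ∈ (a i).support, (a i s : ℚ) • sbox (Finsupp.single (Quot.out s).1 1 -
            Finsupp.single o 1) (Finsupp.single (Quot.out s).2 1 - Finsupp.single o 1) ∈
          RatQ (Place ℂ F × Place ℂ F) := by
        intro i
        obtain ⟨f, hf, h⟩ := ha i
        have h3 := toQ_divisor hf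
        rw [← h, toQ_sumPts] at h3
        have hd : ∑ s ∈ (a i).support, (a i s : ℚ) = 0 := by
          have h4 := tot_toQ (divisor ℂ f)
          rw [sum_divisor, ← h, toQ_sumPts, map_sum] at h4
          have h5 : ∀ s ∈ (a i).support, tot (Place ℂ F) ((a i s : ℚ) •
              (Finsupp.single (Quot.out s).1 (1 : ℚ) + Finsupp.single (Quot.out s).2 (1 : ℚ))) =
              (a i s : ℚ) * 2 := by
            intro s _
            rw [map_smul, map_add, tot_single, tot_single, smul_eq_mul]
            norm_num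
          rw [Finset.sum_congr rfl h5, ← Finset.sum_mul] at h4
          exact (mul_eq_zero.1 h4).resolve_right two_ne_zero
        have h4 := sym_decomp (fun P => Finsupp.single P 1) o (a i) (fun s => (Quot.out s).1)
          (fun s => (Quot.out s).2) h3 hd
        have h5 : Finsupp.linearCombination ℚ lam (toQ _ (a i)) =
            ∑ s ∈ (a i).support, (a i s : ℚ) • sbox (Finsupp.single (Quot.out s).1 1)
              (Finsupp.single (Quot.out s).2 1) := by
          rw [toQ_eq_sum, map_sum]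
          refine Finset.sum_congr rfl fun s _ => ?_
          rw [Finsupp.linearCombination_single]
        rw [h5]
        exact h4
      have h3 := altC_congr _ _ h2
      have h4 : altC (fun i => ∑ s ∈ (a i).support, (a i s : ℚ) •
          sbox (Finsupp.single (Quot.out s).1 1 - Finsupp.single o 1)
            (Finsupp.single (Quot.out s).2 1 - Finsupp.single o 1)) ∈
          RatQ (ι → Place ℂ F × Place ℂ F) := by
        rw [← altM_apply]
        refine multilin_mem (altM ι _) (RatQ (ι → Place ℂ F × Place ℂ F))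
          (fun _ => {c | ∃ x y, c = sbox (Finsupp.single x 1 - Finsupp.single o 1)
            (Finsupp.single y 1 - Finsupp.single o 1)}) (fun v hv => ?_) _ fun i =>
          Submodule.sum_mem _ fun s _ => Submodule.smul_mem _ _
            (Submodule.subset_span ⟨_, _, rfl⟩)
        choose x y hxy using hv
        rw [altM_apply]
        exact altC_of_sub v Finset.univ (sub_sym (W := fun P => Finsupp.single P 1)
          (kills_genus _) (fam_mor (isMor_id F)) o _ (by rwa [Finset.card_univ]) x y v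
          fun i _ => hxy i)
      have := add_mem h3 h4
      rwa [sub_add_cancel] at this
  · have hcard : 0 < Fintype.card ι := lt_of_le_of_lt (Nat.zero_le _) hι
    obtain ⟨i⟩ := Fintype.card_pos_iff.1 hcard
    have : IsEmpty (ι → Sym2 (Place ℂ F)) := ⟨fun p => hne ⟨(Quot.out (p i)).1⟩⟩
    rw [Subsingleton.elim (altC fun i => toQ _ (a i)) 0]
    exact zero_mem _

end sym

section squo

variable {F : Type} [Field F] [Algebra ℂ F] [IsFF ℂ F] {ι : Type} [Fintype ι] [DecidableEq ι]
  {r : ℕ} (ρ : Signs r →* (F ≃ₐ[ℂ] F))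

/-- The elementary symmetric cycles of type `T`. -/
def sgens (o : Place ℂ F) (T : Finset (Fin r)) : Set (Place ℂ F × Place ℂ F →₀ ℚ) :=
  {c | ∃ x y, c = sbox (wt ρ T x - wt ρ T o) (wt ρ T y - wt ρ T o)}

theorem sbox_wt_mem (o : Place ℂ F) (T : Finset (Fin r)) (hT : T.Nonempty)
    (x y : Place ℂ F) : sbox (wt ρ T x) (wt ρ T y) ∈ Submodule.span ℚ (sgens ρ o T) := by
  classical
  obtain ⟨i, hi⟩ := hT
  have hg : chi T (Pi.mulSingle i (-1) : Signs r) = -1 := by
    rw [chi_apply, Finset.prod_eq_single i]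
    · simp
    · intro j _ hj
      exact Pi.mulSingle_eq_of_ne hj _
    · intro h
      exact absurd hi h
  set g : Signs r := Pi.mulSingle i (-1)
  have hm : ∀ x y, sbox (wt ρ T x - wt ρ T o) (wt ρ T y - wt ρ T o) ∈
      Submodule.span ℚ (sgens ρ o T) := fun x y => Submodule.subset_span ⟨x, y, rfl⟩
  rw [wt_half ρ hg x o, wt_half ρ hg y o, ← sboxL_apply, map_smul, map_sub]
  refine Submodule.smul_mem _ _ (sub_mem ?_ ?_)
  all_goals
    rw [sboxL_apply, sbox_comm, ← sboxL_apply, map_smul, map_sub]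
    refine Submodule.smul_mem _ _ (sub_mem ?_ ?_)
    all_goals
      rw [sboxL_apply, sbox_comm]
      exact hm _ _

/-- The sum of the points of an orbit. -/
noncomputable def sorb (p : Place ℂ F × Place ℂ F) : Place ℂ F × Place ℂ F →₀ ℚ :=
  orb ρ ρ p + orb ρ ρ (p.2, p.1)

theorem sorb_eq (p : Place ℂ F × Place ℂ F) : (2 ^ r : ℚ) • sorb ρ p =
    ∑ T : Finset (Fin r), sbox (wt ρ T p.1) (wt ρ T p.2) := by
  rw [sorb, smul_add, orb_eq, orb_eq, ← Finset.sum_add_distrib]
  rfl

theorem map_orb (p : Place ℂ F × Place ℂ F) :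
    Finsupp.lmapDomain ℚ ℚ (SQuo.mk ρ) (orb ρ ρ p) =
      Finsupp.single (SQuo.mk ρ p) (2 ^ r : ℚ) := by
  unfold orb
  rw [map_sum]
  have h : ∀ g : Signs r, Finsupp.lmapDomain ℚ ℚ (SQuo.mk ρ)
      (Finsupp.single (act ρ g p.1, act ρ g p.2) (1 : ℚ)) = Finsupp.single (SQuo.mk ρ p) 1 := by
    intro g
    rw [Finsupp.lmapDomain_apply, Finsupp.mapDomain_single]
    congr 1
    exact (Quot.sound ⟨g, Or.inl rfl⟩).symm
  rw [Finset.sum_congr rfl fun g _ => h g, Finset.sum_const, Finset.card_univ, Finsupp.smul_single]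
  congr 1
  rw [Fintype.card_pi, Finset.prod_const, Fintype.card_units_int, Finset.card_univ,
    Fintype.card_fin, nsmul_eq_mul, mul_one]
  push_cast
  rfl

theorem map_sorb (p : Place ℂ F × Place ℂ F) :
    Finsupp.lmapDomain ℚ ℚ (SQuo.mk ρ) (sorb ρ p) =
      Finsupp.single (SQuo.mk ρ p) (2 * 2 ^ r : ℚ) := by
  rw [sorb, map_add, map_orb, map_orb]
  have h : SQuo.mk ρ (p.2, p.1) = SQuo.mk ρ p := by
    refine (Quot.sound ⟨1, Or.inr ?_⟩).symm
    rw [act_one, act_one]
  rw [h, ← Finsupp.single_add, two_mul]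

theorem toQ_sumOrb (a : SQuo ρ →₀ ℤ) : toQ _ (sumOrb ρ a) =
    ∑ s ∈ a.support, (a s : ℚ) • (wt ρ ∅ (SQuo.out s).1 + wt ρ ∅ (SQuo.out s).2) := by
  rw [sumOrb, Finsupp.sum, map_sum]
  refine Finset.sum_congr rfl fun s _ => ?_
  rw [map_sum, wt_empty, wt_empty, ← Finset.sum_add_distrib, Finset.smul_sum]
  refine Finset.sum_congr rfl fun g _ => ?_
  rw [map_add, toQ_single, toQ_single, smul_add, Finsupp.smul_single, Finsupp.smul_single,
    smul_eq_mul, mul_one]

theorem squo_decomp (o : Place ℂ F) {a : SQuo ρ →₀ ℤ} (ha : Principal (sumOrb ρ a)) :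
    ∃ c : Finset (Fin r) → (Place ℂ F × Place ℂ F →₀ ℚ),
    (∀ T, c T ∈ Submodule.span ℚ (sgens ρ o T)) ∧
    (2 ^ r : ℚ) • Finsupp.linearCombination ℚ (fun s : SQuo ρ => sorb ρ (SQuo.out s)) (toQ _ a) -
      ∑ T, c T ∈ RatQ (Place ℂ F × Place ℂ F) := by
  classical
  let c : Finset (Fin r) → (Place ℂ F × Place ℂ F →₀ ℚ) := fun T =>
    if T = ∅ then ∑ s ∈ a.support, (a s : ℚ) • sbox (wt ρ T (SQuo.out s).1 - wt ρ T o)
      (wt ρ T (SQuo.out s).2 - wt ρ T o)
    else ∑ s ∈ a.support, (a s : ℚ) • sbox (wt ρ T (SQuo.out s).1) (wt ρ T (SQuo.out s).2)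
  have h0 : (2 ^ r : ℚ) • Finsupp.linearCombination ℚ
      (fun s : SQuo ρ => sorb ρ (SQuo.out s)) (toQ _ a) =
      ∑ T : Finset (Fin r), ∑ s ∈ a.support,
        (a s : ℚ) • sbox (wt ρ T (SQuo.out s).1) (wt ρ T (SQuo.out s).2) := by
    rw [toQ_eq_sum, map_sum, Finset.smul_sum, Finset.sum_comm]
    refine Finset.sum_congr rfl fun s _ => ?_
    rw [Finsupp.linearCombination_single, smul_comm, sorb_eq, Finset.smul_sum]
  refine ⟨c, fun T => ?_, ?_⟩
  · by_cases hT : T = ∅
    · simp only [c, if_pos hT]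
      exact Submodule.sum_mem _ fun s _ => Submodule.smul_mem _ _
        (Submodule.subset_span ⟨_, _, rfl⟩)
    · simp only [c, if_neg hT]
      exact Submodule.sum_mem _ fun s _ => Submodule.smul_mem _ _
        (sbox_wt_mem ρ o T (Finset.nonempty_iff_ne_empty.2 hT) _ _)
  · rw [h0, ← Finset.sum_sub_distrib]
    rw [Finset.sum_eq_single ∅]
    · simp only [c, if_true]
      obtain ⟨f, hf, h⟩ := ha
      have h3 := toQ_divisor hf
      rw [← h, toQ_sumOrb] at h3
      have hd : ∑ s ∈ a.support, (a s : ℚ) = 0 := by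
        have h4 := tot_toQ (divisor ℂ f)
        rw [sum_divisor, ← h, toQ_sumOrb, map_sum] at h4
        have h5 : ∀ s ∈ a.support, tot (Place ℂ F) ((a s : ℚ) •
            (wt ρ ∅ (SQuo.out s).1 + wt ρ ∅ (SQuo.out s).2)) =
            (a s : ℚ) * (Fintype.card (Signs r) + Fintype.card (Signs r) : ℚ) := by
          intro s _
          rw [map_smul, map_add, wt_empty, wt_empty, map_sum, map_sum,
            Finset.sum_congr rfl fun g _ => tot_single _ _,
            Finset.sum_congr (s₂ := Finset.univ) rfl fun g _ => tot_single _ _,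
            Finset.sum_const, Finset.card_univ, smul_eq_mul, nsmul_eq_mul, mul_one]
        rw [Finset.sum_congr rfl h5, ← Finset.sum_mul] at h4
        refine (mul_eq_zero.1 h4).resolve_right ?_
        have h6 : (0 : ℚ) < Fintype.card (Signs r) := Nat.cast_pos.2 Fintype.card_pos
        positivity
      exact sym_decomp (wt ρ ∅) o a (fun s => (SQuo.out s).1) (fun s => (SQuo.out s).2) h3 hd
    · intro T _ hT
      simp only [c, if_neg hT, sub_self]
    · intro h
      exact absurd (Finset.mem_univ _) h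

/-- Quotients of the symmetric square of a curve. -/
theorem squo_int (hι : ∑ T : Finset (Fin r), (quotGenus ρ T).choose 2 < Fintype.card ι)
    (a : ι → SQuo ρ →₀ ℤ) (ha : ∀ i, Principal (sumOrb ρ (a i))) :
    ∃ k : ℕ, 0 < k ∧ k • ∑ σ : Equiv.Perm ι, (Equiv.Perm.sign σ : ℤ) • cross (fun i => a (σ i)) ∈
      Rat (ι → SQuo ρ) := by
  classical
  refine exists_mul_mem _ ?_
  rw [toQ_alt]
  by_cases hne : Nonempty (Place ℂ F)
  · obtain ⟨o⟩ := hne
    refine descend (X := Place ℂ F × Place ℂ F) (Y := SQuo ρ) (SQuo.mk ρ)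
      (fun m hm => by exact ⟨m, hm, fun Q => rfl⟩) (fun s => sorb ρ (SQuo.out s)) (2 * 2 ^ r)
      (by positivity) (fun s => ?_) _ ?_
    · rw [map_sorb]
      congr 1
      exact Quot.out_eq s
    · choose c hc hc' using fun i => squo_decomp ρ o (ha i)
      have h1 : altC (fun i => ∑ T, c i T) ∈ RatQ (ι → Place ℂ F × Place ℂ F) := by
        rw [← altM_apply, MultilinearMap.map_sum]
        refine Submodule.sum_mem _ fun t _ => ?_
        obtain ⟨T, hT⟩ : ∃ T, (quotGenus ρ T).choose 2 <
            (Finset.univ.filter fun i => t i = T).card := by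
          by_contra hcon
          push Not at hcon
          have h1 : Fintype.card ι =
              ∑ T : Finset (Fin r), (Finset.univ.filter fun i => t i = T).card := by
            rw [← Finset.card_univ]
            exact Finset.card_eq_sum_card_fiberwise fun i _ => Finset.mem_univ _
          have h2 := Finset.sum_le_sum
            fun T (_ : T ∈ (Finset.univ : Finset (Finset (Fin r)))) => hcon T
          omega
        refine multilin_mem (altM ι _) (RatQ (ι → Place ℂ F × Place ℂ F))
          (fun i => sgens ρ o (t i)) (fun v hv => ?_) _ fun i => hc i _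
        choose x y hxy using hv
        rw [altM_apply]
        refine altC_of_sub v (Finset.univ.filter fun i => t i = T)
          (sub_sym (kills_wt ρ T) (fam_wt ρ T) o _ hT x y v fun i hi => ?_)
        rw [← (Finset.mem_filter.1 hi).2]
        exact hxy i
      have h2 := altC_congr _ _ hc'
      have h3 := add_mem h2 h1
      rw [sub_add_cancel, ← altM_apply, MultilinearMap.map_smul_univ, altM_apply] at h3
      exact (Submodule.smul_mem_iff _ (Finset.prod_ne_zero_iff.2 fun _ _ => by positivity)).1 h3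
  · have hcard : 0 < Fintype.card ι := lt_of_le_of_lt (Nat.zero_le _) hι
    obtain ⟨i⟩ := Fintype.card_pos_iff.1 hcard
    have : IsEmpty (ι → SQuo ρ) := ⟨fun p => hne ⟨(SQuo.out (p i)).1⟩⟩
    rw [Subsingleton.elim (altC fun i => toQ _ (a i)) 0]
    exact zero_mem _

end squo

end Pool.Agent.H46Z
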